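import Mathlib

set_option autoImplicit false
open Finset

/-! Project TF: chains of levels, each a suitable multiple of the preceding one. -/

namespace Pool.Agent.W142.TF

theorem chain_lev (B : ℕ → Prop) (hB : ∀ M : ℕ, 1 ≤ M → ∃ Q : ℕ, B Q ∧ 1 ≤ Q ∧ M ∣ Q) (qq : ℕ → ℕ)
    (hq : ∀ Q, B Q → 1 ≤ qq Q) :
    ∃ R : ℕ → ℕ, (∀ s, B (R s) ∧ 1 ≤ R s) ∧ ∀ s, R s * qq (R s) ∣ R (s + 1) := by
  classical
  have hB' : ∀ M : ℕ, ∃ Q : ℕ, 1 ≤ M → B Q ∧ 1 ≤ Q ∧ M ∣ Q := by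
    intro M
    by_cases hM : 1 ≤ M
    · obtain ⟨Q, hQ⟩ := hB M hM
      exact ⟨Q, fun _ => hQ⟩
    · exact ⟨0, fun h => absurd h hM⟩
  choose nx hnx using hB'
  let R : ℕ → ℕ := fun s => Nat.rec (nx 1) (fun _ r => nx (r * qq r)) s
  have hR : ∀ s, B (R s) ∧ 1 ≤ R s := by
    intro s
    induction s with
    | zero => exact ⟨(hnx 1 le_rfl).1, (hnx 1 le_rfl).2.1⟩
    | succ s ih =>
      have h := hnx (R s * qq (R s)) (Nat.mul_pos ih.2 (hq _ ih.1))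
      exact ⟨h.1, h.2.1⟩
  refine ⟨R, hR, fun s => ?_⟩
  exact (hnx (R s * qq (R s)) (Nat.mul_pos (hR s).2 (hq _ (hR s).1))).2.2

theorem levels (n : ℕ) (B : ℕ → Prop) (hB : ∀ M : ℕ, 1 ≤ M → ∃ Q : ℕ, B Q ∧ 1 ≤ Q ∧ M ∣ Q) (qq : ℕ → ℕ)
    (hq : ∀ Q, B Q → 1 ≤ qq Q) :
    ∃ (Q : ℕ → ℕ) (c : ℕ → ℕ → ℕ) (S : ℕ → ℕ), (∀ j, B (Q j) ∧ 1 ≤ Q j) ∧ (∀ j i, 1 ≤ c j i) ∧
      (∀ i j, i < j → j < n → Q j * c j i = Q i) ∧ (∀ j, j < n → 1 ≤ S j ∧ qq (Q j) ∣ S j) ∧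
      ∀ i j, i < j → j < n → qq (Q j) ∣ c j i ∧ S j = c j i * S i := by
  obtain ⟨R, hR, hRs⟩ := chain_lev B hB qq hq
  have hpos : ∀ s, 0 < R s := fun s => (hR s).2
  have hdvd : ∀ s t, s ≤ t → R s ∣ R t := by
    intro s t h
    induction t, h using Nat.le_induction with
    | base => exact dvd_rfl
    | succ t _ ih => exact ih.trans ((Dvd.intro _ rfl).trans (hRs t))
  have hdvd' : ∀ s t, s < t → qq (R s) ∣ R t / R s := by
    intro s t h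
    obtain ⟨k, hk⟩ := (hRs s).trans (hdvd (s + 1) t h)
    refine ⟨k, ?_⟩
    rw [hk, mul_assoc]
    exact Nat.mul_div_cancel_left _ (hpos s)
  refine ⟨fun j => R (n - 1 - j), fun j i => if i < j then R (n - 1 - i) / R (n - 1 - j) else 1,
    fun j => R n / R (n - 1 - j), fun j => hR _, ?_, ?_, ?_, ?_⟩
  · intro j i
    simp only
    split_ifs with h
    · exact Nat.div_pos (Nat.le_of_dvd (hpos _) (hdvd _ _ (by omega))) (hpos _)
    · exact le_rfl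
  · intro i j hij hj
    simp only [if_pos hij]
    exact Nat.mul_div_cancel' (hdvd _ _ (by omega))
  · intro j hj
    exact ⟨Nat.div_pos (Nat.le_of_dvd (hpos _) (hdvd _ _ (by omega))) (hpos _), hdvd' _ _ (by omega)⟩
  · intro i j hij hj
    simp only [if_pos hij]
    refine ⟨hdvd' _ _ (by omega), ?_⟩
    obtain ⟨x, hx⟩ := hdvd (n - 1 - j) (n - 1 - i) (by omega)
    obtain ⟨y, hy⟩ := hdvd (n - 1 - i) n (by omega)
    have e1 : R n / R (n - 1 - i) = y := by rw [hy]; exact Nat.mul_div_cancel_left _ (hpos _)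
    have e2 : R (n - 1 - i) / R (n - 1 - j) = x := by rw [hx]; exact Nat.mul_div_cancel_left _ (hpos _)
    have e3 : R n / R (n - 1 - j) = x * y := by
      rw [hy, hx, mul_assoc]; exact Nat.mul_div_cancel_left _ (hpos _)
    rw [e1, e2, e3]

end Pool.Agent.W142.TF
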