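import Pool.Agent.W142.TF.FinG
import Pool.Agent.W25.IT.RatWin

/-!
# Half of the iterated equations
-/

set_option autoImplicit false

namespace Pool.Agent.W142.TF.Rat

open Finset Filter Pool.Agent.H732R3.BigQ Pool.Agent.W59.GB Pool.Agent.H947R3.GM Pool.Agent.W25.IT
open Pool.Agent.W25.IT.Rat

/-- classes of exponents, admissible at all primes -/
theorem classes_rat (a b c : ℤ) (ha : 1 ≤ a) (hb : 1 ≤ b) (hc : c ≠ 0) (hab : IsCoprime a b)
    (hac : IsCoprime a c) (hbc : IsCoprime b c) (hpar : ¬ (Odd a ∧ Odd b ∧ Odd c)) {n K : ℕ}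
    (hQ : ∀ (a b : Fin n → Fin K → ℤ), (∀ g i, 0 < a g i) →
    Function.Injective (fun x : Fin n × Fin K => (a x.1 x.2, b x.1 x.2)) →
    (∀ p : ℕ, p.Prime → ∃ n : ℤ, ∀ g i, ¬ ((p : ℤ) ∣ a g i * n + b g i)) →
    ∃ (S : Finset (Fin n)) (c : Fin n → Fin K), n ≤ 4 * S.card ∧
      Big {n : ℕ | ∀ g ∈ S, 0 < a g (c g) * (n : ℤ) + b g (c g) ∧
        Prime (a g (c g) * (n : ℤ) + b g (c g))})
    (H : Fin n → Fin K → ℕ) (hH : AdmN 1 H) :
    ∃ (S : Finset (Fin n)) (t : Fin n → Fin K), n ≤ 4 * S.card ∧ ∀ g ∈ S, ∀ g' ∈ S, H g (t g) < H g' (t g') →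
      H g' (t g') - H g (t g) ∈ GoodEqExp a b c := by
  classical
  obtain ⟨hinj, hadm⟩ := hH
  obtain ⟨J, hJ⟩ : ∃ J : ℕ, ∀ x : Fin n × Fin K, H x.1 x.2 + 1 < J :=
    ⟨(univ.sup fun x : Fin n × Fin K => H x.1 x.2) + 2, fun x => by
      have := le_sup (f := fun x : Fin n × Fin K => H x.1 x.2) (mem_univ x)
      omega⟩
  obtain ⟨β, hβ⟩ := exists_beta a b c (by omega) hab J
  have hHJ : ∀ x : Fin n × Fin K, 1 ≤ H x.1 x.2 + 1 ∧ H x.1 x.2 + 1 < J :=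
    fun x => ⟨by omega, hJ x⟩
  obtain ⟨S, t, hS, hBig⟩ := hQ (fun g i => a ^ (J - (H g i + 1)) * b ^ (H g i + 1))
    (fun g i => β (H g i + 1))
    (fun g i => by positivity)
    (by
      rintro x y h
      simp only [Prod.mk.injEq] at h
      have h1 := forms_inj ha hb hc hab hβ (hHJ x).2.le (hHJ y).2.le h.1 h.2
      exact hinj (show H x.1 x.2 = H y.1 y.2 by omega))
    (by
      intro p hp
      obtain ⟨n, hn⟩ := rat_admissible hab hac hbc hpar hβ (fun x : Fin n × Fin K => H x.1 x.2 + 1)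
        hHJ hp (by
        intro _ hp1 hpc
        obtain ⟨n, hn⟩ := hadm p hp (fun hpN => hp.one_lt.ne' (Nat.dvd_one.1 hpN))
        have hp0 : (0 : ℤ) < p := by exact_mod_cast hp.pos
        refine rat_miss hβ (fun x : Fin _ × Fin K => H x.1 x.2 + 1) (fun x => (hHJ x).2.le) hp
          (bad_not_dvd hab hp hp1).1 hp1 hpc (((-n) % p).toNat + 1) ?_
        rintro ⟨g, i⟩ h
        have h := Nat.ModEq.add_right_cancel' 1 h
        apply hn g i
        have h3 : ((H g i : ℕ) : ℤ) ≡ (((-n) % p).toNat : ℤ) [ZMOD p] := by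
          exact_mod_cast (Int.natCast_modEq_iff).2 h
        rw [Int.toNat_of_nonneg (Int.emod_nonneg _ hp0.ne')] at h3
        have h4 : ((H g i : ℕ) : ℤ) ≡ -n [ZMOD p] := h3.trans (Int.mod_modEq _ _)
        have h5 := (Int.modEq_iff_dvd.1 h4.symm)
        have h6 : ((H g i : ℕ) : ℤ) - -n = n + H g i := by ring
        rwa [h6] at h5)
      exact ⟨n, fun g i => hn (g, i)⟩)
  refine ⟨S, t, hS, ?_⟩
  intro g hgS g' hgS' hlt
  have conv : ∀ n : ℕ, (∀ g ∈ S, 0 < a ^ (J - (H g (t g) + 1)) * b ^ (H g (t g) + 1) * (n : ℤ) +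
      β (H g (t g) + 1) ∧ Prime (a ^ (J - (H g (t g) + 1)) * b ^ (H g (t g) + 1) * (n : ℤ) +
      β (H g (t g) + 1))) → ∀ g ∈ S, ∃ p : ℕ, p.Prime ∧
      a ^ (J - (H g (t g) + 1)) * b ^ (H g (t g) + 1) * n + β (H g (t g) + 1) = p := by
    intro n hn g hg
    obtain ⟨h4, h5⟩ := hn g hg
    exact ⟨_, by rw [Nat.prime_iff_prime_int, Int.toNat_of_nonneg h4.le]; exact h5,
      (Int.toNat_of_nonneg h4.le).symm⟩
  have h4 := eq_of_forms ha hb hβ (show H g (t g) + 1 < H g' (t g') + 1 by omega)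
    (hHJ (g', t g')).2.le (hBig.mono fun n hn => ⟨conv n hn g hgS, conv n hn g' hgS'⟩)
  rwa [Nat.add_sub_add_right] at h4

theorem half (hmai : S_maiG) (a b c : ℤ) (ha : 1 ≤ a) (hb : 1 ≤ b) (hc : c ≠ 0) (hab : IsCoprime a b)
    (hac : IsCoprime a c) (hbc : IsCoprime b c) (hpar : ¬ (Odd a ∧ Odd b ∧ Odd c)) (ε : ℝ) (hε : 0 < ε) :
    ∃ M : ℕ, 0 < M ∧ ∀ N : ℕ, 0 < N → M ∣ N → ∃ L : ℕ, ∀ T : ℕ, L ≤ T → ∀ u : ℕ,
      (1 / 2 - ε) * T ≤ ({k : ℕ | u < k ∧ k ≤ u + T ∧ N * k ∈ GoodEqExp a b c}.ncard : ℝ) := by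
  classical
  obtain ⟨n, hn⟩ := hmai ε hε
  obtain ⟨K, hK, hQ⟩ := quarterB n
  refine windows (GoodEqExp a b c) (n * K).factorial (Nat.factorial_pos _) (1 / 2) ε fun hall => ?_
  obtain ⟨Q, A, s, hs, hQ1, hinj, hcr⟩ := hn n le_rfl
    {k : ℤ | (((n * K).factorial : ℕ) : ℤ) * k ∈ Cpl (GoodEqExp a b c)}
    (fun M hM => by
      obtain ⟨Q, h1, h2, h3⟩ := hall M hM
      refine ⟨Q, h1, h2, fun L₀ => ?_⟩
      obtain ⟨L, hL, u, hu⟩ := h3 L₀
      refine ⟨L, hL, u, le_trans (le_of_eq ?_) hu⟩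
      norm_num) (n * K)
  -- distinct points
  obtain ⟨σ, hσ1, hσ2⟩ := select_aux n K (fun g i => (Q g : ℤ) * A g i) (fun g => by
    intro x hx y hy hxy
    have hQ0 : (Q g : ℤ) ≠ 0 := by have := hQ1 g; omega
    exact hinj g hx hy (mul_left_cancel₀ hQ0 hxy)) n le_rfl
  obtain ⟨H, C, hH⟩ := points n K (n * K).factorial Q (fun g i => A g (σ g i))
  have hM0 : (((n * K).factorial : ℕ) : ℤ) ≠ 0 := by exact_mod_cast (Nat.factorial_pos (n * K)).ne'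
  have hHinj : ∀ (g g' : Fin n) (i i' : Fin K), H g i = H g' i' → g = g' ∧ i = i' := by
    intro g g' i i' h
    have e : (((n * K).factorial : ℕ) : ℤ) * (Q g * A g (σ g i) + C) =
        ((n * K).factorial : ℕ) * (Q g' * A g' (σ g' i') + C) := by rw [← hH, ← hH, h]
    have e1 := mul_left_cancel₀ hM0 e
    have e2 : (Q g : ℤ) * A g (σ g i) = Q g' * A g' (σ g' i') := by linarith
    have e3 := hσ2 g g.2 g' g'.2 i i.2 i' i'.2 e2
    exact ⟨Fin.ext e3.1, Fin.ext e3.2⟩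
  have hadm : AdmN 1 H := by
    refine admN_of' H (fun x y h => ?_) fun p hp hle g i => ?_
    · have := hHinj x.1 y.1 x.2 y.2 h
      exact Prod.ext this.1 this.2
    · rw [hH]
      exact Dvd.dvd.mul_right (Int.natCast_dvd_natCast.2 (Nat.dvd_factorial hp.pos hle)) _
  obtain ⟨S, t, hS, hB⟩ := classes_rat a b c ha hb hc hab hac hbc hpar hQ H hadm
  obtain ⟨i, hi, j, hj, hij⟩ := hs.2 (S.map Fin.valEmbedding) (fun x hx => by
    rw [Finset.mem_map] at hx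
    obtain ⟨y, _, rfl⟩ := hx
    exact mem_range.2 y.2) (by rw [card_map]; exact hS)
  rw [Finset.mem_map] at hi hj
  obtain ⟨i', hi', rfl⟩ := hi
  obtain ⟨j', hj', rfl⟩ := hj
  have hd := hcr j' j'.2 i' hij (σ j' (t j')) (σ i' (t i')) (hσ1 _ j'.2 _ (t j').2) (hσ1 _ i'.2 _ (t i').2)
  have h := not_Cpl C (hH j' (t j')) (hH i' (t i')) hd
  rcases lt_or_gt_of_ne h.1 with hlt | hlt
  · exact h.2.1 hlt (hB j' hj' i' hi' hlt)
  · exact h.2.2 hlt (hB i' hi' j' hj' hlt)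

end Pool.Agent.W142.TF.Rat
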