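import Pool.Agent.W142.TF.NGap

set_option autoImplicit false
open Filter Topology Finset

/-! Project HF: indices of primes. -/

namespace Pool.Agent.W142.TF

open Pool.Agent.H947R3.GM Pool.Agent.H732R3.BigQ Pool.Agent.W59.GB

theorem count_diff {n d : ℕ} (hn : n.Prime) (hnd : (n + d).Prime) (hd : 0 < d) :
    Nat.count Nat.Prime (n + d) = Nat.count Nat.Prime n + ((Ioc n (n + d)).filter Nat.Prime).card := by
  have h1 : Nat.count Nat.Prime (n + d) + 1 = Nat.count Nat.Prime (n + d + 1) := by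
    rw [Nat.count_succ, if_pos hnd]
  have h2 : Nat.count Nat.Prime (n + 1) = Nat.count Nat.Prime n + 1 := by
    rw [Nat.count_succ, if_pos hn]
  have h3 : Nat.count Nat.Prime (n + d + 1) = Nat.count Nat.Prime (n + 1) + ((Ioc n (n + d)).filter Nat.Prime).card := by
    rw [Nat.count_eq_card_filter_range, Nat.count_eq_card_filter_range, ← card_union_of_disjoint]
    · congr 1
      ext y
      simp only [mem_filter, mem_union, mem_range, mem_Ioc]
      constructor
      · rintro ⟨h, hp⟩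
        by_cases hy : y < n + 1
        · exact Or.inl ⟨hy, hp⟩
        · exact Or.inr ⟨⟨by omega, by omega⟩, hp⟩
      · rintro (⟨h, hp⟩ | ⟨h, hp⟩)
        · exact ⟨by omega, hp⟩
        · exact ⟨by omega, hp⟩
    · rw [Finset.disjoint_left]
      intro y hy hy'
      rw [mem_filter, mem_range] at hy
      rw [mem_filter, mem_Ioc] at hy'
      omega
  omega

theorem nthJ {J N a k : ℕ} (hN : 0 < N) (hk : k ∈ DiffJ J N a) : ∃ j : ℕ, 1 ≤ j ∧ j ≤ J ∧ ∀ η : ℝ, 0 < η →
    ∃ᶠ x : ℝ in atTop, x ^ (1 - η) ≤ ({n : ℕ | (Nat.nth Nat.Prime n : ℝ) ≤ x ∧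
      Nat.nth Nat.Prime n ≡ a [MOD N] ∧
      Nat.nth Nat.Prime (n + j) = Nat.nth Nat.Prime n + N * k}.ncard : ℝ) := by
  classical
  obtain ⟨hk0, hB⟩ := hk
  have hd : 0 < N * k := Nat.mul_pos hN hk0
  obtain ⟨j, hj⟩ := big_cover (ι := Fin J) (fun j => {n : ℕ | n.Prime ∧ n ≡ a [MOD N] ∧
    Nat.nth Nat.Prime (Nat.count Nat.Prime n + (j + 1)) = n + N * k}) _ hB (by
      rintro n ⟨h1, h2, h3, h4⟩
      have h5 := count_diff h1 h3 hd
      have h6 : 0 < ((Ioc n (n + N * k)).filter Nat.Prime).card :=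
        card_pos.2 ⟨n + N * k, by rw [mem_filter, mem_Ioc]; exact ⟨⟨by omega, le_rfl⟩, h3⟩⟩
      rw [Set.mem_iUnion]
      refine ⟨⟨((Ioc n (n + N * k)).filter Nat.Prime).card - 1, by omega⟩, h1, h2, ?_⟩
      have h7 : Nat.count Nat.Prime n + (((Ioc n (n + N * k)).filter Nat.Prime).card - 1 + 1) =
          Nat.count Nat.Prime (n + N * k) := by omega
      show Nat.nth Nat.Prime (Nat.count Nat.Prime n + (((Ioc n (n + N * k)).filter Nat.Prime).card - 1 + 1)) = _
      rw [h7]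
      exact Nat.nth_count h3)
  refine ⟨j + 1, by omega, by have := j.2; omega, fun η hη => ?_⟩
  refine (hj η hη).mono fun x hx => hx.trans ?_
  have hfin : {n : ℕ | (Nat.nth Nat.Prime n : ℝ) ≤ x ∧ Nat.nth Nat.Prime n ≡ a [MOD N] ∧
      Nat.nth Nat.Prime (n + (j + 1)) = Nat.nth Nat.Prime n + N * k}.Finite := by
    apply (Set.finite_Iic ⌊x⌋₊).subset
    rintro n ⟨h, -⟩
    rw [Set.mem_Iic]
    apply Nat.le_floor
    have h1 := Nat.add_two_le_nth_prime n
    have h2 : (n : ℝ) ≤ Nat.nth Nat.Prime n := by exact_mod_cast (by omega : n ≤ Nat.nth Nat.Prime n)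
    linarith
  have hinj : Set.InjOn (fun n : ℕ => Nat.count Nat.Prime n) {n : ℕ | (n.Prime ∧ n ≡ a [MOD N] ∧
      Nat.nth Nat.Prime (Nat.count Nat.Prime n + (j + 1)) = n + N * k) ∧ (n : ℝ) ≤ x} := by
    rintro n ⟨⟨h1, _⟩, _⟩ n' ⟨⟨h1', _⟩, _⟩ h
    have := congrArg (Nat.nth Nat.Prime) h
    simp only at this
    rwa [Nat.nth_count h1, Nat.nth_count h1'] at this
  have h := Set.ncard_le_ncard_of_injOn (fun n : ℕ => Nat.count Nat.Prime n) (fun n hn => ?_) hinj hfin
  · exact_mod_cast h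
  · obtain ⟨⟨h1, h2, h3⟩, h4⟩ := hn
    have e := Nat.nth_count h1
    refine ⟨?_, ?_, ?_⟩
    · rw [e]; exact h4
    · rw [e]; exact h2
    · rw [e]; exact h3

end Pool.Agent.W142.TF
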