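import Pool.Agent.W142.TF.Fin
import Pool.Agent.W756.TF.Ban
import Pool.Agent.W681.TF.Cls
import Pool.Agent.W880.TF.Low
import Pool.Agent.W880.TF.Per
import Pool.Agent.W196.TF.KRO
import Pool.Agent.W335.TF.Loc
import Pool.Agent.W140.TF.Pts
import Pool.Agent.W284.TF.Dys
import Pool.Agent.W91.TF.One
import Pool.Agent.W816.TF.Sep
import Pool.Agent.W597.TF.Blo
import Pool.Agent.W372.FN.Appr
import Pool.Agent.W505.FN.Clamp
import Pool.Agent.W505.FN.Wmh
import Pool.Agent.W505.FN.NullS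
import Pool.Agent.W975.FN.Trg

set_option autoImplicit false

/-! Project TF: assembly. -/

namespace Pool.Agent.W142.TF

theorem s_appr : Pool.Agent.W27.FB.S_appr :=
  Pool.Agent.W372.FN.appr Pool.Agent.W505.FN.nul Pool.Agent.W505.FN.wmh Pool.Agent.W975.FN.trg
    (Pool.Agent.W505.FN.clamp Pool.Agent.W975.FN.trg)

theorem s_cmp : S_cmp := cmp Pool.Agent.W505.FN.nul Pool.Agent.W975.FN.trg Pool.Agent.W91.TF.one Pool.Agent.W816.TF.sep

theorem s_per : S_per := Pool.Agent.W880.TF.per Pool.Agent.W196.TF.kro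

theorem s_low : S_low := Pool.Agent.W880.TF.low s_per
  (Pool.Agent.W335.TF.loc (Pool.Agent.W140.TF.nul Pool.Agent.W284.TF.s_dys)) Pool.Agent.W681.TF.clss

theorem s_maiF : S_maiF := maiF Pool.Agent.W756.TF.ban s_appr Pool.Agent.W681.TF.clss Pool.Agent.W681.TF.lev
  s_low s_cmp Pool.Agent.W597.TF.blo

end Pool.Agent.W142.TF
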