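import Mathlib

set_option autoImplicit false
open Finset

/-! Project HF: selection of distinct points. -/

namespace Pool.Agent.W142.TF

theorem select_aux (n K : ℕ) (f : ℕ → ℕ → ℤ) (hinj : ∀ g, Set.InjOn (f g) {k | k < n * K}) (t : ℕ) (ht : t ≤ n) :
    ∃ σ : ℕ → ℕ → ℕ, (∀ g < t, ∀ i < K, σ g i < n * K) ∧
      ∀ g < t, ∀ g' < t, ∀ i < K, ∀ i' < K, f g (σ g i) = f g' (σ g' i') → g = g' ∧ i = i' := by
  classical
  induction t with
  | zero => exact ⟨fun _ _ => 0, fun g hg => absurd hg (Nat.not_lt_zero g), fun g hg => absurd hg (Nat.not_lt_zero g)⟩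
  | succ t ih =>
    obtain ⟨σ, h1, h2⟩ := ih (by omega)
    set X : Finset ℤ := (range t ×ˢ range K).image (fun x => f x.1 (σ x.1 x.2)) with hX
    have hXc : X.card ≤ t * K := by
      refine card_image_le.trans ?_
      rw [card_product, card_range, card_range]
    set Y : Finset ℕ := (range (n * K)).filter (fun k => f t k ∉ X) with hY
    have hYc : K ≤ Y.card := by
      have h3 : ((range (n * K)).filter (fun k => ¬ f t k ∉ X)).card ≤ X.card := by
        refine card_le_card_of_injOn (f t) (fun k hk => ?_) (fun x hx y hy h => ?_)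
        · rw [mem_coe, mem_filter] at hk
          exact not_not.1 hk.2
        · rw [mem_coe, mem_filter, mem_range] at hx hy
          exact hinj t hx.1 hy.1 h
      have h4 := card_filter_add_card_filter_not (s := range (n * K)) (fun k => f t k ∉ X)
      rw [card_range] at h4
      have h5 : (t + 1) * K ≤ n * K := Nat.mul_le_mul_right _ ht
      have h6 : (t + 1) * K = t * K + K := by ring
      have h7 : Y.card = ((range (n * K)).filter (fun k => f t k ∉ X)).card := rfl
      omega
    obtain ⟨Z, hZY, hZc⟩ := exists_subset_card_eq hYc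
    let e := Z.orderEmbOfFin hZc
    refine ⟨fun g i => if g = t then (if h : i < K then e ⟨i, h⟩ else 0) else σ g i, ?_, ?_⟩
    · intro g hg i hi
      simp only
      split_ifs with hgt
      · have h3 : e ⟨i, hi⟩ ∈ Z := orderEmbOfFin_mem _ _ _
        exact mem_range.1 (mem_filter.1 (hZY h3)).1
      · exact h1 g (by omega) i hi
    · intro g hg g' hg' i hi i' hi' h
      simp only at h
      by_cases hgt : g = t
      · by_cases hgt' : g' = t
        · simp only [hgt, hgt', if_true, hi, hi', dif_pos] at h
          have h3 : e ⟨i, hi⟩ ∈ Z := orderEmbOfFin_mem _ _ _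
          have h3' : e ⟨i', hi'⟩ ∈ Z := orderEmbOfFin_mem _ _ _
          have h4 := hinj t (mem_range.1 (mem_filter.1 (hZY h3)).1) (mem_range.1 (mem_filter.1 (hZY h3')).1) h
          have h5 := e.injective h4
          rw [Fin.mk.injEq] at h5
          exact ⟨hgt.trans hgt'.symm, h5⟩
        · exfalso
          simp only [hgt, hgt', if_true, if_false, hi, dif_pos] at h
          have h3 : e ⟨i, hi⟩ ∈ Z := orderEmbOfFin_mem _ _ _
          refine (mem_filter.1 (hZY h3)).2 ?_
          rw [h, hX, mem_image]
          exact ⟨(g', i'), by rw [mem_product, mem_range, mem_range]; exact ⟨by simp only; omega, hi'⟩, rfl⟩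
      · by_cases hgt' : g' = t
        · exfalso
          simp only [hgt, hgt', if_true, if_false, hi', dif_pos] at h
          have h3 : e ⟨i', hi'⟩ ∈ Z := orderEmbOfFin_mem _ _ _
          refine (mem_filter.1 (hZY h3)).2 ?_
          rw [← h, hX, mem_image]
          exact ⟨(g, i), by rw [mem_product, mem_range, mem_range]; exact ⟨by simp only; omega, hi⟩, rfl⟩
        · simp only [hgt, hgt', if_false] at h
          exact h2 g (by omega) g' (by omega) i hi i' hi' h

end Pool.Agent.W142.TF
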