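import Pool.Agent.W142.TF.Fin
import Pool.Agent.W142.TF.Sel

set_option autoImplicit false
open Filter Topology Finset

/-! Project HF: one half of the multiples of every sufficiently divisible number are differences of primes. -/

namespace Pool.Agent.W142.TF

open Pool.Agent.H947R3.GM Pool.Agent.H732R3.BigQ

/-- the `k` such that `q * k` is the difference of many pairs of primes that are `a` modulo `q` -/
def DiffB (q a : ℕ) : Set ℕ := {k | 0 < k ∧ Big {n : ℕ | n.Prime ∧ n ≡ a [MOD q] ∧ (n + q * k).Prime}}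

theorem admN_of' {n K q : ℕ} (H : Fin n → Fin K → ℕ) (hinj : Function.Injective (fun x : Fin n × Fin K => H x.1 x.2))
    (hdiv : ∀ p, p.Prime → p ≤ n * K → ∀ g i, (p : ℤ) ∣ (H g i : ℤ)) : AdmN q H := by
  classical
  refine ⟨hinj, ?_⟩
  intro p hp hpq
  by_cases hle : p ≤ n * K
  · refine ⟨1, fun g i hd => ?_⟩
    have h2 : (p : ℤ) ∣ 1 := (dvd_add_left (hdiv p hp hle g i)).1 hd
    have h3 := Int.eq_one_of_dvd_one (by positivity) h2
    exact hp.one_lt.ne' (by exact_mod_cast h3)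
  · haveI : Fact p.Prime := ⟨hp⟩
    have : ∃ y : ZMod p, y ∉ (univ : Finset (Fin n × Fin K)).image (fun x => -(H x.1 x.2 : ZMod p)) := by
      by_contra hcon
      push Not at hcon
      have h1 : (univ : Finset (ZMod p)) ⊆ (univ : Finset (Fin n × Fin K)).image (fun x => -(H x.1 x.2 : ZMod p)) :=
        fun y _ => hcon y
      have h2 := (card_le_card h1).trans card_image_le
      rw [card_univ, ZMod.card, card_univ, Fintype.card_prod, Fintype.card_fin, Fintype.card_fin] at h2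
      omega
    obtain ⟨y, hy⟩ := this
    refine ⟨y.val, fun g i hd => hy ?_⟩
    rw [mem_image]
    refine ⟨(g, i), mem_univ _, ?_⟩
    rw [← ZMod.intCast_zmod_eq_zero_iff_dvd] at hd
    push_cast at hd
    rw [ZMod.natCast_zmod_val] at hd
    linear_combination -hd

/-- the coloured Maynard-Tao theorem for classes of shifts -/
theorem classes {n K : ℕ} (hQ : ∀ (a b : Fin n → Fin K → ℤ), (∀ g i, 0 < a g i) →
    Function.Injective (fun x : Fin n × Fin K => (a x.1 x.2, b x.1 x.2)) →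
    (∀ p : ℕ, p.Prime → ∃ n : ℤ, ∀ g i, ¬ ((p : ℤ) ∣ a g i * n + b g i)) →
    ∃ (S : Finset (Fin n)) (c : Fin n → Fin K), n ≤ 4 * S.card ∧
      Big {n : ℕ | ∀ g ∈ S, 0 < a g (c g) * (n : ℤ) + b g (c g) ∧
        Prime (a g (c g) * (n : ℤ) + b g (c g))})
    {q a : ℕ} (hq : 0 < q) (ha : a.Coprime q) (H : Fin n → Fin K → ℕ) (hadm : AdmN q H) :
    ∃ (S : Finset (Fin n)) (c : Fin n → Fin K), n ≤ 4 * S.card ∧
      Big {m : ℕ | ∀ g ∈ S, (q * m + (a + q * H g (c g))).Prime} := by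
  obtain ⟨S, c, hS, hB⟩ := hQ (fun _ _ => (q : ℤ)) (fun g i => (a : ℤ) + q * H g i) (fun _ _ => by exact_mod_cast hq)
    (by
      intro x y hxy
      simp only [Prod.mk.injEq, true_and] at hxy
      have hq' : (q : ℤ) ≠ 0 := by exact_mod_cast hq.ne'
      have h1 : (q : ℤ) * H x.1 x.2 = q * H y.1 y.2 := by linarith
      have h2 := mul_left_cancel₀ hq' h1
      exact hadm.1 (by exact_mod_cast h2))
    (by
      intro p hp
      haveI : Fact p.Prime := ⟨hp⟩
      by_cases hpq : p ∣ q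
      · refine ⟨0, fun g i hd => ?_⟩
        have h1 : (p : ℤ) ∣ (q : ℤ) * H g i := Dvd.dvd.mul_right (Int.natCast_dvd_natCast.2 hpq) _
        rw [mul_zero, zero_add] at hd
        have h2 : (p : ℤ) ∣ (a : ℤ) := (dvd_add_left h1).1 hd
        have h3 : p ∣ a := by exact_mod_cast h2
        exact Nat.not_coprime_of_dvd_of_dvd hp.one_lt h3 hpq ha
      · obtain ⟨m, hm⟩ := hadm.2 p hp hpq
        have hq0 : (q : ZMod p) ≠ 0 := by
          rw [Ne, ZMod.natCast_eq_zero_iff]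
          exact hpq
        refine ⟨((m : ZMod p) - a / q).val, fun g i hd => hm g i ?_⟩
        rw [← ZMod.intCast_zmod_eq_zero_iff_dvd] at hd ⊢
        push_cast at hd ⊢
        rw [ZMod.natCast_zmod_val] at hd
        field_simp at hd
        have h1 : (q : ZMod p) * ((m : ZMod p) + H g i) = 0 := by linear_combination hd
        exact (mul_eq_zero.1 h1).resolve_left hq0)
  refine ⟨S, c, hS, Big.mono (fun m hm g hg => ?_) hB⟩
  have h := (hm g hg).2
  have e : (q : ℤ) * (m : ℤ) + ((a : ℤ) + q * H g (c g)) = ((q * m + (a + q * H g (c g)) : ℕ) : ℤ) := by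
    push_cast; ring
  rw [e] at h
  exact Nat.prime_iff_prime_int.2 h

theorem diffB_of {q a : ℕ} (hq : 0 < q) {F : Set ℕ} (hF : Big F) {h h' : ℕ} (hlt : h < h')
    (h1 : ∀ m ∈ F, (q * m + (a + q * h)).Prime) (h2 : ∀ m ∈ F, (q * m + (a + q * h')).Prime) : h' - h ∈ DiffB q a := by
  refine ⟨by omega, Big.affine hF q ((a : ℤ) + q * h) hq (fun m => q * m + (a + q * h)) (fun m _ => by
    push_cast; ring) fun m hm => ⟨h1 m hm, ?_, ?_⟩⟩
  · have e : q * m + (a + q * h) = a + q * (m + h) := by ring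
    rw [e]
    exact (Nat.modEq_iff_dvd' (Nat.le_add_right _ _)).2 (by simp) |>.symm
  · have e : q * m + (a + q * h) + q * (h' - h) = q * m + (a + q * h') := by
      obtain ⟨d, rfl⟩ := Nat.exists_eq_add_of_lt hlt
      have : h + d + 1 - h = d + 1 := by omega
      rw [this]
      ring
    rw [e]
    exact h2 m hm

theorem hf (hmai : S_maiG) (q a : ℕ) (hq : 0 < q) (ha : a.Coprime q) (ε : ℝ) (hε : 0 < ε) :
    ∃ M : ℕ, 0 < M ∧ ∀ N : ℕ, 0 < N → M ∣ N → ∃ L : ℕ, ∀ T : ℕ, L ≤ T → ∀ u : ℕ,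
      (1 / 2 - ε) * T ≤ ({k : ℕ | u < k ∧ k ≤ u + T ∧ N * k ∈ DiffB q a}.ncard : ℝ) := by
  classical
  obtain ⟨n, hn⟩ := hmai ε hε
  obtain ⟨K, hK, hQ⟩ := quarterB n
  refine windows (DiffB q a) (n * K).factorial (Nat.factorial_pos _) (1 / 2) ε fun hall => ?_
  obtain ⟨Q, A, s, hs, hQ1, hinj, hcr⟩ := hn n le_rfl
    {k : ℤ | (((n * K).factorial : ℕ) : ℤ) * k ∈ Cpl (DiffB q a)}
    (fun M hM => by
      obtain ⟨Q, h1, h2, h3⟩ := hall M hM
      refine ⟨Q, h1, h2, fun L₀ => ?_⟩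
      obtain ⟨L, hL, u, hu⟩ := h3 L₀
      refine ⟨L, hL, u, le_trans (le_of_eq ?_) hu⟩
      norm_num) (n * K)
  -- distinct points
  obtain ⟨σ, hσ1, hσ2⟩ := select_aux n K (fun g i => (Q g : ℤ) * A g i) (fun g => by
    intro x hx y hy hxy
    have hQ0 : (Q g : ℤ) ≠ 0 := by have := hQ1 g; omega
    exact hinj g hx hy (mul_left_cancel₀ hQ0 hxy)) n le_rfl
  obtain ⟨H, C, hH⟩ := points n K (n * K).factorial Q (fun g i => A g (σ g i))
  have hM0 : (((n * K).factorial : ℕ) : ℤ) ≠ 0 := by exact_mod_cast (Nat.factorial_pos (n * K)).ne'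
  have hHinj : ∀ (g g' : Fin n) (i i' : Fin K), H g i = H g' i' → g = g' ∧ i = i' := by
    intro g g' i i' h
    have e : (((n * K).factorial : ℕ) : ℤ) * (Q g * A g (σ g i) + C) =
        ((n * K).factorial : ℕ) * (Q g' * A g' (σ g' i') + C) := by rw [← hH, ← hH, h]
    have e1 := mul_left_cancel₀ hM0 e
    have e2 : (Q g : ℤ) * A g (σ g i) = Q g' * A g' (σ g' i') := by linarith
    have e3 := hσ2 g g.2 g' g'.2 i i.2 i' i'.2 e2
    exact ⟨Fin.ext e3.1, Fin.ext e3.2⟩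
  have hadm : AdmN q H := by
    refine admN_of' H (fun x y h => ?_) fun p hp hle g i => ?_
    · have := hHinj x.1 y.1 x.2 y.2 h
      exact Prod.ext this.1 this.2
    · rw [hH]
      exact Dvd.dvd.mul_right (Int.natCast_dvd_natCast.2 (Nat.dvd_factorial hp.pos hle)) _
  obtain ⟨S, c, hS, hB⟩ := classes hQ hq ha H hadm
  obtain ⟨i, hi, j, hj, hij⟩ := hs.2 (S.map Fin.valEmbedding) (fun x hx => by
    rw [Finset.mem_map] at hx
    obtain ⟨y, _, rfl⟩ := hx
    exact mem_range.2 y.2) (by rw [card_map]; exact hS)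
  rw [Finset.mem_map] at hi hj
  obtain ⟨i', hi', rfl⟩ := hi
  obtain ⟨j', hj', rfl⟩ := hj
  have hd := hcr j' j'.2 i' hij (σ j' (c j')) (σ i' (c i')) (hσ1 _ j'.2 _ (c j').2) (hσ1 _ i'.2 _ (c i').2)
  have h := not_Cpl C (hH j' (c j')) (hH i' (c i')) hd
  rcases lt_or_gt_of_ne h.1 with hlt | hlt
  · exact h.2.1 hlt (diffB_of hq hB hlt (fun m hm => hm j' hj') (fun m hm => hm i' hi'))
  · exact h.2.2 hlt (diffB_of hq hB hlt (fun m hm => hm i' hi') (fun m hm => hm j' hj'))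

end Pool.Agent.W142.TF
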