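import Pool.Agent.W142.TF.Stm3

set_option autoImplicit false
open Filter Topology Finset
open scoped BoundedContinuousFunction

/-! Project HF (one half of the multiples of a suitable number are differences of primes): statements. -/

namespace Pool.Agent.W142.TF

open Pool.Agent.W634.BQ Pool.Agent.W505.BQ Pool.Agent.W27.FB

/-- HF-POL : Pollard's theorem, for differences -/
def S_pol : Prop := ∀ (p : ℕ) [NeZero p], p.Prime → ∀ (A B : Finset (ZMod p)) (t : ℕ), t ≤ A.card → t ≤ B.card →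
  t * min p (A.card + B.card - t) ≤ ∑ d : ZMod p, min t ((A ×ˢ B).filter (fun x => x.1 - x.2 = d)).card

/-- HF-ROB : a robust form of the Cauchy-Davenport theorem -/
def S_rob : Prop := ∀ (p : ℕ), p.Prime → ∀ (A B R : Finset (ZMod p)) (δ : ℝ), 0 < δ → δ ≤ 1 → A.Nonempty →
  δ * p + 1 ≤ B.card → (∀ a ∈ A, ((B.filter (fun b => a - b ∉ R)).card : ℝ) ≤ δ ^ 2 * p) →
    ((min p (A.card + B.card) : ℕ) : ℝ) ≤ R.card + 2 * δ * p + 1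

/-- HF-CHE : simultaneous concentration for functions of independent uniform variables -/
def S_che : Prop := ∀ (n p : ℕ) [NeZero p] (δ : ℝ), 0 < δ → δ ≤ 1 → ∀ (T : Type) [Fintype T] (W : T → Finset (Fin n))
  (f : T → (Fin n → ZMod p) → Fin n → ZMod p → ℝ), (∀ τ x i y, 0 ≤ f τ x i y ∧ f τ x i y ≤ 1) →
  (∀ τ x x', (∀ i ∈ W τ, x i = x' i) → f τ x = f τ x') → (Fintype.card T : ℝ) * Real.exp (-(δ ^ 2 * n / 4)) < 1 →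
  ∃ x : Fin n → ZMod p, ∀ τ, ∑ i ∈ univ \ W τ, f τ x i (x i) ≤ ∑ i ∈ univ \ W τ, (∑ y, f τ x i y) / p + δ * n

/-- HF-IND : points without large cliques -/
def S_ind : Prop := ∀ ε : ℝ, 0 < ε → ∃ n₀ P₀ : ℕ, ∀ n p : ℕ, n₀ ≤ n → p.Prime → P₀ ≤ p →
  ∀ R : Fin n → Fin n → Finset (ZMod p), (∀ i j, i < j → ((R i j).card : ℝ) ≤ (1 / 2 - ε) * p) →
    ∃ x : Fin n → ZMod p, ∀ I : Finset (Fin n), n ≤ 4 * I.card → ∃ i ∈ I, ∃ j ∈ I, i < j ∧ x j - x i ∉ R i j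

/-- HF-LOC : few bad residues -/
def S_locG : Prop := ∀ ε : ℝ, 0 < ε → ∃ n₀ P₀ : ℕ, ∀ n p : ℕ, n₀ ≤ n → p.Prime → P₀ ≤ p → ∀ η : ℝ, 0 < η →
  ∀ Φ Ψ : ℕ → ℕ → ℤ → ℝ, (∀ i j z, 0 ≤ Ψ i j z ∧ Ψ i j z ≤ 1) →
  (∀ i j : ℕ, i < j → j < n → (∀ z : ℕ, z < p → |Ψ i j z - Ψ i j ((z : ℤ) - p)| ≤ η) ∧
    (1 / 2 + ε + 6 * η) * p ≤ ∑ z ∈ range p, Ψ i j z ∧
    ∑ z ∈ range p, ((Φ i j z - Ψ i j z) ^ 2 + (Φ i j ((z : ℤ) - p) - Ψ i j ((z : ℤ) - p)) ^ 2) ≤ η ^ 3 * p) →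
  ∃ z : ℕ → ℕ, (∀ j, z j < p) ∧ ∀ I : Finset ℕ, I ⊆ range n → n ≤ 4 * I.card →
    ∃ i ∈ I, ∃ j ∈ I, i < j ∧ η < Φ i j ((z j : ℤ) - z i)

/-- the weight of a configuration with a graph of constraints, for the sets -/
noncomputable def GV (β : ℕ → (ℤ →ᵇ ℝ)) (V : ℕ → Set ℤ) (c : ℕ → ℕ → ℕ) (s : ℕ → Finset ℕ) (n : ℕ) (a : ℕ → ℤ) : ℝ :=
  ∏ j ∈ range n, (β j (a j) * ∏ i ∈ s j, ind (V j) (a j - c j i * a i))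

/-- the weight of a configuration with a graph of constraints, for the almost periodic parts -/
noncomputable def GP (β : ℕ → (ℤ →ᵇ ℝ)) (P : ℕ → (ℤ →ᵇ ℝ)) (c : ℕ → ℕ → ℕ) (s : ℕ → Finset ℕ) (n : ℕ)
    (a : ℕ → ℤ) : ℝ :=
  ∏ j ∈ range n, (β j (a j) * ∏ i ∈ s j, P j (a j - c j i * a i))

/-- a graph on `{0, ..., n-1}` (`s j` is the set of the neighbours `i < j` of `j`) without independent set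
of size at least `n / 4` -/
def NoInd (n : ℕ) (s : ℕ → Finset ℕ) : Prop := (∀ j, s j ⊆ range j) ∧
  ∀ I : Finset ℕ, I ⊆ range n → n ≤ 4 * I.card → ∃ i ∈ I, ∃ j ∈ I, i ∈ s j

/-- HF-CMP : comparison of the iterated means, for a graph of constraints -/
def S_cmpG : Prop := ∀ (m : ℕ → ((ℤ →ᵇ ℝ) →ₗ[ℝ] ℝ)), (∀ j, IsMean (m j)) → ∀ (V : ℕ → Set ℤ)
  (P : ℕ → (ℤ →ᵇ ℝ)) (ε : ℝ), 0 < ε → (∀ j, App (m j) (V j) (P j) ε) → ∀ (c : ℕ → ℕ → ℕ), (∀ j i, 1 ≤ c j i) →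
  ∀ (s : ℕ → Finset ℕ), (∀ j, s j ⊆ range j) → ∀ (n : ℕ) (β : ℕ → (ℤ →ᵇ ℝ)), (∀ j, Tr01 (β j)) →
    |It m n (GV β V c s n) - It m n (GP β P c s n)| ≤ 2 * n ^ 2 * ε

/-- HF-LOW : lower bound for the iterated mean of the almost periodic configuration -/
def S_lowG : Prop := ∀ ε : ℝ, 0 < ε → ∃ n₀ : ℕ, ∀ n : ℕ, n₀ ≤ n → ∀ (m : ℕ → ((ℤ →ᵇ ℝ) →ₗ[ℝ] ℝ)), (∀ j, IsMean (m j)) →
  ∀ (P : ℕ → (ℤ →ᵇ ℝ)) (q S : ℕ → ℕ) (c : ℕ → ℕ → ℕ) (η : ℝ), 0 < η →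
  (∀ j < n, (∀ x, 0 ≤ P j x ∧ P j x ≤ 1) ∧ Tor (P j) (q j) ∧ 1 ≤ q j ∧ 1 ≤ S j ∧ q j ∣ S j) →
  (∀ i j, i < j → j < n → q j ∣ c j i ∧ S j = c j i * S i) →
  ∃ c₀ : ℝ, 0 < c₀ ∧ ∀ (P' : ℕ → (ℤ →ᵇ ℝ)) (r : ℕ → ℤ), (∀ j < n, ∀ x, 0 ≤ P' j x ∧ P' j x ≤ 1) →
    (∀ j, 1 ≤ j → j < n → (1 / 2 + ε + 8 * η) / q j ≤ m j (cls (q j) (r j) * P j) ∧
      m j (cls (q j) (r j) * ((P' j - P j) * (P' j - P j))) ≤ η ^ 3 / (2 * (n + 1) ^ 2) / q j) →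
    ∃ s : ℕ → Finset ℕ, NoInd n s ∧ c₀ ≤ It m n (GP (fun j => cls (q j) (r j)) P' c s n)

/-- HF-MAI : the conclusion for sets of which arbitrarily divisible dilates have upper Banach density
above `1/2` -/
def S_maiG : Prop := ∀ ε : ℝ, 0 < ε → ∃ n₀ : ℕ, ∀ n : ℕ, n₀ ≤ n → ∀ U : Set ℤ,
  (∀ M : ℕ, 1 ≤ M → ∃ Q : ℕ, 1 ≤ Q ∧ M ∣ Q ∧ ∀ L₀ : ℕ, ∃ L : ℕ, L₀ ≤ L ∧ ∃ u : ℤ,
    (1 / 2 + ε) * L ≤ ({n : ℕ | n < L ∧ (Q : ℤ) * (u + (n : ℤ)) ∈ U}.ncard : ℝ)) →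
  ∀ K : ℕ, ∃ (Q : ℕ → ℕ) (A : ℕ → ℕ → ℤ) (s : ℕ → Finset ℕ), NoInd n s ∧ (∀ j, 1 ≤ Q j) ∧
    (∀ j, Set.InjOn (A j) {k | k < K}) ∧
    ∀ j < n, ∀ i ∈ s j, ∀ k k', k < K → k' < K → (Q j : ℤ) * A j k - (Q i : ℤ) * A i k' ∈ U

/-- TF-MAI' : the form of `S_mai` with arbitrarily divisible dilates -/
def S_maiF : Prop := ∀ (U : Set ℤ) (ε : ℝ), 0 < ε →
  (∀ M : ℕ, 1 ≤ M → ∃ Q : ℕ, 1 ≤ Q ∧ M ∣ Q ∧ ∀ L₀ : ℕ, ∃ L : ℕ, L₀ ≤ L ∧ ∃ u : ℤ,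
    (3 / 5 + ε) * L ≤ ({n : ℕ | n < L ∧ (Q : ℤ) * (u + (n : ℤ)) ∈ U}.ncard : ℝ)) →
  ∀ K : ℕ, ∃ (Q : ℕ → ℕ) (A : ℕ → ℕ → ℤ), (∀ j, 1 ≤ Q j) ∧ (∀ j, Set.InjOn (A j) {k | k < K}) ∧
    ∀ i j, i < j → j < 5 → ∀ k k', k < K → k' < K → (Q j : ℤ) * A j k - (Q i : ℤ) * A i k' ∈ U

end Pool.Agent.W142.TF
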