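import Pool.Agent.W142.TF.All
import Pool.Agent.W142.TF.MaiG
import Pool.Agent.W142.TF.FinG
import Pool.Agent.W333.HF.POL
import Pool.Agent.W824.HF.Rob
import Pool.Agent.W311.HF.Che
import Pool.Agent.W588.HF.IND
import Pool.Agent.W571.HF.Loc
import Pool.Agent.W372.HF.Low

set_option autoImplicit false

/-! Project HF: assembly. -/

namespace Pool.Agent.W142.TF

theorem s_ind : S_ind := Pool.Agent.W588.HF.ind_thm (Pool.Agent.W824.HF.rob Pool.Agent.W333.HF.pol) Pool.Agent.W311.HF.che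

theorem s_lowG : S_lowG := Pool.Agent.W372.HF.lowG s_per (Pool.Agent.W571.HF.locG s_ind) Pool.Agent.W681.TF.clss

theorem s_cmpG : S_cmpG := cmpG Pool.Agent.W505.FN.nul Pool.Agent.W975.FN.trg Pool.Agent.W91.TF.one Pool.Agent.W816.TF.sep

theorem s_maiG : S_maiG := maiG Pool.Agent.W756.TF.ban s_appr Pool.Agent.W681.TF.clss Pool.Agent.W681.TF.lev
  s_lowG s_cmpG Pool.Agent.W597.TF.blo

end Pool.Agent.W142.TF
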