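import Pool.Agent.W142.TF.Stm2

set_option autoImplicit false
open Filter Topology Finset
open scoped BoundedContinuousFunction

/-! Project TF: comparison of the iterated means of a configuration and of its almost periodic part. -/

namespace Pool.Agent.W142.TF

open Pool.Agent.W634.BQ Pool.Agent.W505.BQ Pool.Agent.W27.FB

/-- composition with an affine map -/
noncomputable def aff (t k : ℤ) : (ℤ →ᵇ ℂ) →ₗ[ℂ] (ℤ →ᵇ ℂ) where
  toFun f := f.compContinuous ⟨fun n => t + k * n, continuous_of_discreteTopology⟩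
  map_add' f g := by ext n; rfl
  map_smul' c f := by ext n; rfl

theorem aff_apply (t k : ℤ) (f : ℤ →ᵇ ℂ) (n : ℤ) : aff t k f n = f (t + k * n) := rfl

theorem aff_trig (t k : ℤ) {f : ℤ →ᵇ ℂ} (hf : f ∈ Trig) : aff t k f ∈ Trig := by
  have h : Submodule.map (aff t k) Trig ≤ Trig := by
    unfold Trig
    rw [Submodule.map_span_le]
    rintro _ ⟨θ, rfl⟩
    have : aff t k (chr θ) = ((θ ^ t : Circle) : ℂ) • chr (θ ^ k) := by
      ext n
      rw [aff_apply, BoundedContinuousFunction.coe_smul]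
      simp only [chr_apply, smul_eq_mul]
      rw [zpow_add, zpow_mul, Circle.coe_mul]
    rw [this]
    exact Submodule.smul_mem _ _ (Submodule.subset_span ⟨_, rfl⟩)
  exact h ⟨f, hf, rfl⟩

/-- composition of a real function with an affine map -/
noncomputable def affR (t k : ℤ) (f : ℤ →ᵇ ℝ) : ℤ →ᵇ ℝ :=
  f.compContinuous ⟨fun n => t + k * n, continuous_of_discreteTopology⟩

theorem affR_apply (t k : ℤ) (f : ℤ →ᵇ ℝ) (n : ℤ) : affR t k f n = f (t + k * n) := rfl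

theorem co_affR (t k : ℤ) (f : ℤ →ᵇ ℝ) : co (affR t k f) = aff t k (co f) := by
  ext n; rfl

theorem tr01_mul (htrg : S_trg) {β P : ℤ →ᵇ ℝ} (hβ : Tr01 β) (hP : Tr01 P) (t k : ℤ) : Tr01 (β * affR t k P) := by
  refine ⟨?_, fun n => ?_⟩
  · rw [co_mul, co_affR]
    exact htrg.2.1 _ _ hβ.1 (aff_trig t k hP.1)
  · have h1 := hβ.2 n
    have h2 := hP.2 (t + k * n)
    have e : (β * affR t k P) n = β n * P (t + k * n) := rfl
    rw [e]
    exact ⟨mul_nonneg h1.1 h2.1, mul_le_one₀ h1.2 h2.1 h2.2⟩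

theorem ind01 (V : Set ℤ) (n : ℤ) : 0 ≤ ind V n ∧ ind V n ≤ 1 := by
  by_cases h : n ∈ V
  · rw [ind_mem h]; norm_num
  · rw [ind_notMem h]; norm_num

theorem prod01 {ι : Type*} (s : Finset ι) (f : ι → ℝ) (h : ∀ i ∈ s, 0 ≤ f i ∧ f i ≤ 1) :
    0 ≤ ∏ i ∈ s, f i ∧ ∏ i ∈ s, f i ≤ 1 :=
  ⟨prod_nonneg fun i hi => (h i hi).1, prod_le_one (fun i hi => (h i hi).1) fun i hi => (h i hi).2⟩

theorem mul01 {x y : ℝ} (hx : 0 ≤ x ∧ x ≤ 1) (hy : 0 ≤ y ∧ y ≤ 1) : 0 ≤ x * y ∧ x * y ≤ 1 :=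
  ⟨mul_nonneg hx.1 hy.1, mul_le_one₀ hx.2 hy.1 hy.2⟩

theorem abs01 {x : ℝ} (hx : 0 ≤ x ∧ x ≤ 1) : |x| ≤ 1 := by
  rw [abs_of_nonneg hx.1]; exact hx.2

section
variable (β : ℕ → (ℤ →ᵇ ℝ)) (V : ℕ → Set ℤ) (P : ℕ → (ℤ →ᵇ ℝ)) (c : ℕ → ℕ → ℕ)

theorem FV_01 (hβ : ∀ j n, 0 ≤ β j n ∧ β j n ≤ 1) (n : ℕ) (a : ℕ → ℤ) : 0 ≤ FV β V c n a ∧ FV β V c n a ≤ 1 :=
  prod01 _ _ fun j _ => mul01 (hβ j _) (prod01 _ _ fun i _ => ind01 _ _)

theorem FP_01 (hβ : ∀ j n, 0 ≤ β j n ∧ β j n ≤ 1) (hP : ∀ j n, 0 ≤ P j n ∧ P j n ≤ 1) (n : ℕ) (a : ℕ → ℤ) :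
    0 ≤ FP β P c n a ∧ FP β P c n a ≤ 1 :=
  prod01 _ _ fun j _ => mul01 (hβ j _) (prod01 _ _ fun i _ => hP _ _)

/-- generic form of both weights -/
noncomputable def FG (g : ℕ → ℤ → ℝ) (n : ℕ) (a : ℕ → ℤ) : ℝ :=
  ∏ j ∈ range n, (β j (a j) * ∏ i ∈ range j, g j (a j - c j i * a i))

theorem FG_dep (g : ℕ → ℤ → ℝ) (n : ℕ) {a b : ℕ → ℤ} (h : ∀ j < n, a j = b j) : FG β c g n a = FG β c g n b := by
  unfold FG
  refine prod_congr rfl fun j hj => ?_
  rw [mem_range] at hj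
  rw [h j hj]
  congr 1
  refine prod_congr rfl fun i hi => ?_
  rw [mem_range] at hi
  rw [h i (hi.trans hj)]

/-- the inner mean -/
noncomputable def inn (m : (ℤ →ᵇ ℝ) →ₗ[ℝ] ℝ) (g : ℤ → ℝ) (n : ℕ) (a : ℕ → ℤ) : ℝ :=
  m (toB (fun t => β n t * ∏ i ∈ range n, g (t - c n i * a i)))

theorem It_FG (m : ℕ → ((ℤ →ᵇ ℝ) →ₗ[ℝ] ℝ)) (hβ : ∀ j n, 0 ≤ β j n ∧ β j n ≤ 1) (g : ℕ → ℤ → ℝ)
    (hg : ∀ j n, 0 ≤ g j n ∧ g j n ≤ 1) (n : ℕ) :
    It m (n + 1) (FG β c g (n + 1)) = It m n (fun a => FG β c g n a * inn β c (m n) (g n) n a) := by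
  show It m n _ = _
  congr 1
  funext a
  have hb : ∀ t : ℤ, |β n t * ∏ i ∈ range n, g n (t - c n i * a i)| ≤ 1 := fun t =>
    abs01 (mul01 (hβ n t) (prod01 _ _ fun i _ => hg n _))
  have : (fun t => FG β c g (n + 1) (Function.update a n t)) =
      fun t => FG β c g n a * (β n t * ∏ i ∈ range n, g n (t - c n i * a i)) := by
    funext t
    unfold FG
    rw [prod_range_succ]
    congr 1
    · exact FG_dep β c g n fun j hj => Function.update_of_ne (by omega) _ _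
    · rw [Function.update_self]
      congr 1
      refine prod_congr rfl fun i hi => ?_
      rw [mem_range] at hi
      rw [Function.update_of_ne (by omega)]
  rw [this, toB_smul hb, map_smul, smul_eq_mul]
  rfl

theorem inn_01 {m : (ℤ →ᵇ ℝ) →ₗ[ℝ] ℝ} (hm : IsMean m) (hβ : ∀ j n, 0 ≤ β j n ∧ β j n ≤ 1) (g : ℤ → ℝ)
    (hg : ∀ n, 0 ≤ g n ∧ g n ≤ 1) (n : ℕ) (a : ℕ → ℤ) : 0 ≤ inn β c m g n a ∧ inn β c m g n a ≤ 1 := by
  have hb0 : ∀ t : ℤ, 0 ≤ β n t * ∏ i ∈ range n, g (t - c n i * a i) ∧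
      β n t * ∏ i ∈ range n, g (t - c n i * a i) ≤ 1 := fun t =>
    mul01 (hβ n t) (prod01 _ _ fun i _ => hg _)
  have hb : ∀ t : ℤ, |β n t * ∏ i ∈ range n, g (t - c n i * a i)| ≤ 1 := fun t => abs01 (hb0 t)
  refine ⟨?_, (abs_le.1 (m_toB_abs hm hb)).2⟩
  refine hm.pos _ fun t => ?_
  rw [toB_apply hb]
  exact (hb0 t).1

theorem FG_01 (hβ : ∀ j n, 0 ≤ β j n ∧ β j n ≤ 1) (g : ℕ → ℤ → ℝ)
    (hg : ∀ j n, 0 ≤ g j n ∧ g j n ≤ 1) (n : ℕ) (a : ℕ → ℤ) : 0 ≤ FG β c g n a ∧ FG β c g n a ≤ 1 :=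
  prod01 _ _ fun j _ => mul01 (hβ j _) (prod01 _ _ fun i _ => hg _ _)

/-- separation: the weight is absorbed in the functions `β` -/
theorem FG_absorb (g : ℕ → ℤ → ℝ) (Q : ℤ →ᵇ ℝ) (t : ℤ) (e : ℕ → ℕ) (n : ℕ) (a : ℕ → ℤ) :
    FG β c g n a * ∏ i ∈ range n, Q (t - e i * a i) =
      FG (fun i => β i * affR t (-(e i : ℤ)) Q) c g n a := by
  unfold FG
  rw [← prod_mul_distrib]
  refine prod_congr rfl fun j _ => ?_
  have h1 : (β j * affR t (-(e j : ℤ)) Q) (a j) = β j (a j) * Q (t - e j * a j) := by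
    show β j (a j) * Q (t + -(e j : ℤ) * a j) = _
    congr 2
    ring
  rw [h1]
  ring

end

theorem cmp (hnul : S_nul) (htrg : S_trg) (hone : S_one) (hsep : S_sep) : S_cmp := by
  intro m hm V P ε hε happ c hc n
  have hP : ∀ j, Tr01 (P j) := fun j => ⟨(happ j).1, (happ j).2.1⟩
  have hP01 : ∀ j n, 0 ≤ P j n ∧ P j n ≤ 1 := fun j n => (hP j).2 n
  have hV01 : ∀ (j : ℕ) (n : ℤ), 0 ≤ ind (V j) n ∧ ind (V j) n ≤ 1 := fun j n => ind01 _ _
  have key : ∀ (n : ℕ) (β : ℕ → (ℤ →ᵇ ℝ)), (∀ j, Tr01 (β j)) →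
    |It m n (FG β c (fun j => ind (V j)) n) - It m n (FG β c (fun j => P j) n)| ≤ 2 * n ^ 2 * ε := by
    intro n
    induction n with
    | zero =>
      intro β hβ
      have e0 : ∀ g : ℕ → ℤ → ℝ, It m 0 (FG β c g 0) = 1 := fun g => by
        show FG β c g 0 0 = 1
        simp [FG]
      rw [e0, e0]
      simp
    | succ n ih =>
      intro β hβ
      have hβ01 : ∀ j n, 0 ≤ β j n ∧ β j n ≤ 1 := fun j n => (hβ j).2 n
      rw [It_FG β c m hβ01 (fun j => ind (V j)) hV01 n, It_FG β c m hβ01 (fun j => P j) hP01 n]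
      -- notation
      set fV : (ℕ → ℤ) → ℝ := FG β c (fun j => ind (V j)) n with hfV
      set fP : (ℕ → ℤ) → ℝ := FG β c (fun j => P j) n with hfP
      set hhV : (ℕ → ℤ) → ℝ := inn β c (m n) (ind (V n)) n with hhhV
      set hhP : (ℕ → ℤ) → ℝ := inn β c (m n) (P n) n with hhhP
      have b1 : ∀ a, 0 ≤ fV a ∧ fV a ≤ 1 := FG_01 β c hβ01 _ hV01 n
      have b2 : ∀ a, 0 ≤ fP a ∧ fP a ≤ 1 := FG_01 β c hβ01 _ hP01 n
      have b3 : ∀ a, 0 ≤ hhV a ∧ hhV a ≤ 1 := inn_01 β c (hm n) hβ01 _ (hV01 n) n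
      have b4 : ∀ a, 0 ≤ hhP a ∧ hhP a ≤ 1 := inn_01 β c (hm n) hβ01 _ (hP01 n) n
      -- step 1
      have s1 : |It m n (fun a => fV a * hhV a) - It m n (fun a => fV a * hhP a)| ≤ n * (ε + ε) := by
        obtain ⟨N, hN, hdep, hNa⟩ := hone (m n) (hm n) (V n) (P n) ε hε (happ n) (β n) (hβ n) n (c n) (hc n) ε hε
        refine It_sub_abs hm n (fun a => abs01 (mul01 (b1 a) (b3 a))) (fun a => abs01 (mul01 (b1 a) (b4 a))) ?_
        refine It_gen hnul hm n (C := 2) (fun a => ?_) N hN hdep fun a ha => ?_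
        · rw [abs_abs]
          refine (abs_sub _ _).trans ?_
          have h1 := abs01 (mul01 (b1 a) (b3 a))
          have h2 := abs01 (mul01 (b1 a) (b4 a))
          linarith
        · rw [← mul_sub, abs_mul]
          have h1 := hNa a ha
          have h2 : |fV a| ≤ 1 := abs01 (b1 a)
          calc |fV a| * |hhV a - hhP a| ≤ 1 * |hhV a - hhP a| :=
                mul_le_mul_of_nonneg_right h2 (abs_nonneg _)
            _ ≤ n * (ε + ε) := by rw [one_mul]; exact h1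
      obtain ⟨F, w, hw0, hw1, hsepa⟩ := hsep (m n) (hm n) (P n) (β n) (hP n) (fun x => hβ01 n x) n (c n) ε hε
      set W : (ℕ → ℤ) → ℝ := fun a => ∑ t ∈ F, w t * ∏ i ∈ range n, P n (t - c n i * a i) with hW
      have bq : ∀ (t : ℤ) (a : ℕ → ℤ), 0 ≤ ∏ i ∈ range n, P n (t - c n i * a i) ∧
          ∏ i ∈ range n, P n (t - c n i * a i) ≤ 1 := fun t a => prod01 _ _ fun i _ => hP01 n _
      have bW : ∀ a, |W a| ≤ 1 := by
        intro a
        have h0 : 0 ≤ W a := sum_nonneg fun t _ => mul_nonneg (hw0 t) (bq t a).1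
        rw [abs_of_nonneg h0]
        refine le_trans (sum_le_sum fun t _ => ?_) hw1
        exact mul_le_of_le_one_right (hw0 t) (bq t a).2
      -- step 2 for a general function in place of fV, fP
      have s2 : ∀ f : (ℕ → ℤ) → ℝ, (∀ a, 0 ≤ f a ∧ f a ≤ 1) →
          |It m n (fun a => f a * hhP a) - It m n (fun a => f a * W a)| ≤ ε := by
        intro f hf
        have hfW : ∀ a, |f a * W a| ≤ 1 := fun a => by
          rw [abs_mul]
          exact mul_le_one₀ (abs01 (hf a)) (abs_nonneg _) (bW a)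
        refine It_sub_abs hm n (fun a => abs01 (mul01 (hf a) (b4 a))) hfW ?_
        have h1 : ∀ a, |f a * hhP a - f a * W a| ≤ ε := fun a => by
          rw [← mul_sub, abs_mul]
          calc |f a| * |hhP a - W a| ≤ 1 * |hhP a - W a| :=
                mul_le_mul_of_nonneg_right (abs01 (hf a)) (abs_nonneg _)
            _ ≤ ε := by rw [one_mul]; exact hsepa a
        have h2 := It_mono hm n (F := fun a => |f a * hhP a - f a * W a|) (G := fun _ => ε) (C := ε) (D := ε)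
          (fun a => by rw [abs_abs]; exact h1 a) (fun a => (abs_of_pos hε).le) h1
        rwa [It_const hm] at h2
      -- step 3
      have s3 : ∀ g : ℕ → ℤ → ℝ, (∀ j n, 0 ≤ g j n ∧ g j n ≤ 1) →
          It m n (fun a => FG β c g n a * W a) =
            ∑ t ∈ F, w t * It m n (FG (fun i => β i * affR t (-(c n i : ℤ)) (P n)) c g n) := by
        intro g hg
        have hb' : ∀ (t : ℤ) (j : ℕ) (x : ℤ), 0 ≤ (β j * affR t (-(c n j : ℤ)) (P n)) x ∧
            (β j * affR t (-(c n j : ℤ)) (P n)) x ≤ 1 := fun t j x =>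
          (tr01_mul htrg (hβ j) (hP n) t _).2 x
        have hbb : ∀ (t : ℤ) (a : ℕ → ℤ), |FG (fun i => β i * affR t (-(c n i : ℤ)) (P n)) c g n a| ≤ 1 :=
          fun t a => abs01 (FG_01 _ c (hb' t) g hg n a)
        have e : (fun a => FG β c g n a * W a) = fun a => ∑ t ∈ F,
            (w t * FG (fun i => β i * affR t (-(c n i : ℤ)) (P n)) c g n a) := by
          funext a
          rw [hW]
          simp only
          rw [mul_sum]
          refine sum_congr rfl fun t _ => ?_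
          rw [← FG_absorb]
          ring
        rw [e, It_sum hm n F _ (C := ∑ t ∈ F, w t)]
        · exact sum_congr rfl fun t _ => It_smul hm n (hbb t) _
        · intro t ht a
          rw [abs_mul, abs_of_nonneg (hw0 t)]
          refine (mul_le_of_le_one_right (hw0 t) (hbb t a)).trans ?_
          exact single_le_sum (f := w) (fun i _ => hw0 i) ht
      have s4 : |It m n (fun a => fV a * W a) - It m n (fun a => fP a * W a)| ≤ 2 * n ^ 2 * ε := by
        rw [hfV, hfP, s3 _ hV01, s3 _ hP01, ← sum_sub_distrib]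
        refine (abs_sum_le_sum_abs _ _).trans ?_
        have h1 : ∀ t ∈ F, |w t * It m n (FG (fun i => β i * affR t (-(c n i : ℤ)) (P n)) c (fun j => ind (V j)) n) -
            w t * It m n (FG (fun i => β i * affR t (-(c n i : ℤ)) (P n)) c (fun j => P j) n)| ≤
            w t * (2 * n ^ 2 * ε) := fun t _ => by
          rw [← mul_sub, abs_mul, abs_of_nonneg (hw0 t)]
          exact mul_le_mul_of_nonneg_left (ih _ fun j => tr01_mul htrg (hβ j) (hP n) t _) (hw0 t)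
        refine (sum_le_sum h1).trans ?_
        rw [← sum_mul]
        exact mul_le_of_le_one_left (by positivity) hw1
      have t1 := s2 fV b1
      have t2 := s2 fP b2
      rw [abs_le] at s1 s4 t1 t2 ⊢
      push_cast
      constructor <;> nlinarith [s1.1, s1.2, s4.1, s4.2, t1.1, t1.2, t2.1, t2.2, mul_nonneg (Nat.cast_nonneg (α := ℝ) n) hε.le]
  intro β hβ
  exact key n β hβ

end Pool.Agent.W142.TF
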