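import Pool.Agent.W142.TF.Cmp
import Pool.Agent.W142.TF.Stm4

set_option autoImplicit false
open Filter Topology Finset
open scoped BoundedContinuousFunction

/-! Project HF: comparison of the iterated means, for a graph of constraints. -/

namespace Pool.Agent.W142.TF

open Pool.Agent.W634.BQ Pool.Agent.W505.BQ Pool.Agent.W27.FB

/-- enumeration of a finite set of natural numbers in increasing order -/
theorem enum (s : Finset ℕ) : ∃ (e idx : ℕ → ℕ), (∀ u ∈ s, idx u < s.card ∧ e (idx u) = u) ∧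
    (∀ l < s.card, e l ∈ s) ∧ (∀ l l', l < l' → l' < s.card → e l < e l') ∧
    ∀ g : ℕ → ℝ, ∏ i ∈ s, g i = ∏ l ∈ range s.card, g (e l) := by
  classical
  let f := s.orderIsoOfFin rfl
  refine ⟨fun l => if h : l < s.card then ((f ⟨l, h⟩ : s) : ℕ) else 0,
    fun u => if h : u ∈ s then ((f.symm ⟨u, h⟩ : Fin s.card) : ℕ) else 0, ?_, ?_, ?_, ?_⟩
  · intro u hu
    simp only [hu, dif_pos]
    refine ⟨(f.symm ⟨u, hu⟩).2, ?_⟩
    rw [dif_pos (f.symm ⟨u, hu⟩).2]
    simp
  · intro l hl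
    simp only [hl, dif_pos]
    exact (f ⟨l, hl⟩).2
  · intro l l' h h'
    have hl : l < s.card := h.trans h'
    simp only [hl, h', dif_pos]
    have : f ⟨l, hl⟩ < f ⟨l', h'⟩ := f.strictMono (by simpa using h)
    exact this
  · intro g
    rw [Finset.prod_range]
    have h1 : ∏ i ∈ s, g i = ∏ x : s, g x := (Finset.prod_coe_sort s g).symm
    rw [h1]
    refine (Fintype.prod_equiv f.toEquiv _ _ fun l => ?_).symm
    simp only [Fin.is_lt, dif_pos]
    rfl

/-- one mean, for a finite set of earlier variables -/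
theorem oneS (hnul : S_nul) (hone : S_one) (m : (ℤ →ᵇ ℝ) →ₗ[ℝ] ℝ) (hm : IsMean m) (V : Set ℤ) (P : ℤ →ᵇ ℝ) (ε : ℝ)
    (hε : 0 < ε) (happ : App m V P ε) (β : ℤ →ᵇ ℝ) (hβ : Tr01 β) (s : Finset ℕ) (c : ℕ → ℕ) (hc : ∀ i, 1 ≤ c i)
    (δ : ℝ) (hδ : 0 < δ) :
    ∃ N : ℕ → (ℕ → ℤ) → Set ℤ, (∀ u a, Null (N u a)) ∧ (∀ u a b, (∀ j < u, a j = b j) → N u a = N u b) ∧
    ∀ a : ℕ → ℤ, (∀ u ∈ s, a u ∉ N u a) →
      |m (toB (fun t => β t * ∏ i ∈ s, ind V (t - c i * a i))) -
        m (toB (fun t => β t * ∏ i ∈ s, P (t - c i * a i)))| ≤ s.card * (ε + δ) := by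
  classical
  obtain ⟨e, idx, h1, h2, h3, h4⟩ := enum s
  obtain ⟨N, hN, hdep, hNa⟩ := hone m hm V P ε hε happ β hβ s.card (fun l => c (e l)) (fun l => hc _) δ hδ
  refine ⟨fun u a => if u ∈ s then N (idx u) (fun l => a (e l)) else ∅, ?_, ?_, ?_⟩
  · intro u a
    simp only
    split_ifs with h
    · exact hN _ _
    · exact hnul.2.2.2.1
  · intro u a b hab
    simp only
    split_ifs with h
    · refine hdep _ _ _ fun l hl => hab _ ?_
      have := h3 l (idx u) hl (h1 u h).1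
      rwa [(h1 u h).2] at this
    · rfl
  · intro a ha
    have h5 := hNa (fun l => a (e l)) (fun l hl => by
      have h6 := ha (e l) (h2 l hl)
      simp only [h2 l hl, if_true] at h6
      have h7 : idx (e l) = l := by
        have h8 := h1 (e l) (h2 l hl)
        rcases lt_trichotomy (idx (e l)) l with h | h | h
        · exact absurd h8.2 (h3 _ _ h hl).ne
        · exact h
        · exact absurd h8.2 (h3 _ _ h h8.1).ne'
      rwa [h7] at h6)
    have e1 : (fun t => β t * ∏ i ∈ s, ind V (t - c i * a i)) =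
        fun t => β t * ∏ l ∈ range s.card, ind V (t - c (e l) * a (e l)) := by
      funext t; rw [h4]
    have e2 : (fun t => β t * ∏ i ∈ s, P (t - c i * a i)) =
        fun t => β t * ∏ l ∈ range s.card, P (t - c (e l) * a (e l)) := by
      funext t; rw [h4]
    rw [e1, e2]
    exact h5

/-- separation, for a finite set of earlier variables -/
theorem sepS (hsep : S_sep) (m : (ℤ →ᵇ ℝ) →ₗ[ℝ] ℝ) (hm : IsMean m) (P β : ℤ →ᵇ ℝ) (hP : Tr01 P)
    (hβ : ∀ n, 0 ≤ β n ∧ β n ≤ 1) (s : Finset ℕ) (c : ℕ → ℕ) (δ : ℝ) (hδ : 0 < δ) :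
    ∃ (F : Finset ℤ) (w : ℤ → ℝ), (∀ t, 0 ≤ w t) ∧ ∑ t ∈ F, w t ≤ 1 ∧ ∀ a : ℕ → ℤ,
      |m (toB (fun t => β t * ∏ i ∈ s, P (t - c i * a i))) -
        ∑ t ∈ F, w t * ∏ i ∈ s, P (t - c i * a i)| ≤ δ := by
  classical
  obtain ⟨e, idx, h1, h2, h3, h4⟩ := enum s
  obtain ⟨F, w, hw0, hw1, ha⟩ := hsep m hm P β hP hβ s.card (fun l => c (e l)) δ hδ
  refine ⟨F, w, hw0, hw1, fun a => ?_⟩
  have h5 := ha (fun l => a (e l))
  have e1 : (fun t => β t * ∏ i ∈ s, P (t - c i * a i)) =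
      fun t => β t * ∏ l ∈ range s.card, P (t - c (e l) * a (e l)) := by
    funext t; rw [h4]
  have e2 : ∑ t ∈ F, w t * ∏ i ∈ s, P (t - c i * a i) =
      ∑ t ∈ F, w t * ∏ l ∈ range s.card, P (t - c (e l) * a (e l)) :=
    sum_congr rfl fun t _ => by rw [h4]
  rw [e1, e2]
  exact h5

section
variable (β : ℕ → (ℤ →ᵇ ℝ)) (c : ℕ → ℕ → ℕ) (s : ℕ → Finset ℕ)

/-- generic form of both weights -/
noncomputable def GG (g : ℕ → ℤ → ℝ) (n : ℕ) (a : ℕ → ℤ) : ℝ :=
  ∏ j ∈ range n, (β j (a j) * ∏ i ∈ s j, g j (a j - c j i * a i))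

theorem GG_dep (hs : ∀ j, s j ⊆ range j) (g : ℕ → ℤ → ℝ) (n : ℕ) {a b : ℕ → ℤ} (h : ∀ j < n, a j = b j) :
    GG β c s g n a = GG β c s g n b := by
  unfold GG
  refine prod_congr rfl fun j hj => ?_
  rw [mem_range] at hj
  rw [h j hj]
  congr 1
  refine prod_congr rfl fun i hi => ?_
  have hi' := mem_range.1 (hs j hi)
  rw [h i (hi'.trans hj)]

/-- the inner mean -/
noncomputable def innG (m : (ℤ →ᵇ ℝ) →ₗ[ℝ] ℝ) (g : ℤ → ℝ) (n : ℕ) (a : ℕ → ℤ) : ℝ :=
  m (toB (fun t => β n t * ∏ i ∈ s n, g (t - c n i * a i)))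

theorem It_GG (hs : ∀ j, s j ⊆ range j) (m : ℕ → ((ℤ →ᵇ ℝ) →ₗ[ℝ] ℝ)) (hβ : ∀ j n, 0 ≤ β j n ∧ β j n ≤ 1)
    (g : ℕ → ℤ → ℝ) (hg : ∀ j n, 0 ≤ g j n ∧ g j n ≤ 1) (n : ℕ) :
    It m (n + 1) (GG β c s g (n + 1)) = It m n (fun a => GG β c s g n a * innG β c s (m n) (g n) n a) := by
  show It m n _ = _
  congr 1
  funext a
  have hb : ∀ t : ℤ, |β n t * ∏ i ∈ s n, g n (t - c n i * a i)| ≤ 1 := fun t =>
    abs01 (mul01 (hβ n t) (prod01 _ _ fun i _ => hg n _))
  have : (fun t => GG β c s g (n + 1) (Function.update a n t)) =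
      fun t => GG β c s g n a * (β n t * ∏ i ∈ s n, g n (t - c n i * a i)) := by
    funext t
    unfold GG
    rw [prod_range_succ]
    congr 1
    · exact GG_dep β c s hs g n fun j hj => Function.update_of_ne (by omega) _ _
    · rw [Function.update_self]
      congr 1
      refine prod_congr rfl fun i hi => ?_
      have hi' := mem_range.1 (hs n hi)
      rw [Function.update_of_ne (by omega)]
  rw [this, toB_smul hb, map_smul, smul_eq_mul]
  rfl

theorem innG_01 {m : (ℤ →ᵇ ℝ) →ₗ[ℝ] ℝ} (hm : IsMean m) (hβ : ∀ j n, 0 ≤ β j n ∧ β j n ≤ 1) (g : ℤ → ℝ)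
    (hg : ∀ n, 0 ≤ g n ∧ g n ≤ 1) (n : ℕ) (a : ℕ → ℤ) : 0 ≤ innG β c s m g n a ∧ innG β c s m g n a ≤ 1 := by
  have hb0 : ∀ t : ℤ, 0 ≤ β n t * ∏ i ∈ s n, g (t - c n i * a i) ∧
      β n t * ∏ i ∈ s n, g (t - c n i * a i) ≤ 1 := fun t =>
    mul01 (hβ n t) (prod01 _ _ fun i _ => hg _)
  have hb : ∀ t : ℤ, |β n t * ∏ i ∈ s n, g (t - c n i * a i)| ≤ 1 := fun t => abs01 (hb0 t)
  refine ⟨?_, (abs_le.1 (m_toB_abs hm hb)).2⟩
  refine hm.pos _ fun t => ?_
  rw [toB_apply hb]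
  exact (hb0 t).1

theorem GG_01 (hβ : ∀ j n, 0 ≤ β j n ∧ β j n ≤ 1) (g : ℕ → ℤ → ℝ)
    (hg : ∀ j n, 0 ≤ g j n ∧ g j n ≤ 1) (n : ℕ) (a : ℕ → ℤ) : 0 ≤ GG β c s g n a ∧ GG β c s g n a ≤ 1 :=
  prod01 _ _ fun j _ => mul01 (hβ j _) (prod01 _ _ fun i _ => hg _ _)

/-- separation: the weight is absorbed in the functions `β` -/
theorem GG_absorb (g : ℕ → ℤ → ℝ) (Q : ℤ →ᵇ ℝ) (t : ℤ) (e : ℕ → ℕ) (n : ℕ) (s' : Finset ℕ) (hs' : s' ⊆ range n)
    (a : ℕ → ℤ) :
    GG β c s g n a * ∏ i ∈ s', Q (t - e i * a i) =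
      GG (fun i => if i ∈ s' then β i * affR t (-(e i : ℤ)) Q else β i) c s g n a := by
  classical
  unfold GG
  have h1 : ∏ i ∈ s', Q (t - e i * a i) = ∏ j ∈ range n, if j ∈ s' then Q (t - e j * a j) else 1 := by
    rw [prod_ite, prod_const_one, mul_one, Finset.filter_mem_eq_inter, Finset.inter_eq_right.2 hs']
  rw [h1, ← prod_mul_distrib]
  refine prod_congr rfl fun j _ => ?_
  by_cases hj : j ∈ s'
  · simp only [if_pos hj]
    have h2 : (β j * affR t (-(e j : ℤ)) Q) (a j) = β j (a j) * Q (t - e j * a j) := by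
      show β j (a j) * Q (t + -(e j : ℤ) * a j) = _
      congr 2
      ring
    rw [h2]
    ring
  · simp only [if_neg hj]
    ring

end

theorem cmpG (hnul : S_nul) (htrg : S_trg) (hone : S_one) (hsep : S_sep) : S_cmpG := by
  intro m hm V P ε hε happ c hc s hs n
  classical
  have hP : ∀ j, Tr01 (P j) := fun j => ⟨(happ j).1, (happ j).2.1⟩
  have hP01 : ∀ j n, 0 ≤ P j n ∧ P j n ≤ 1 := fun j n => (hP j).2 n
  have hV01 : ∀ (j : ℕ) (n : ℤ), 0 ≤ ind (V j) n ∧ ind (V j) n ≤ 1 := fun j n => ind01 _ _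
  have key : ∀ (n : ℕ) (β : ℕ → (ℤ →ᵇ ℝ)), (∀ j, Tr01 (β j)) →
    |It m n (GG β c s (fun j => ind (V j)) n) - It m n (GG β c s (fun j => P j) n)| ≤ 2 * n ^ 2 * ε := by
    intro n
    induction n with
    | zero =>
      intro β hβ
      have e0 : ∀ g : ℕ → ℤ → ℝ, It m 0 (GG β c s g 0) = 1 := fun g => by
        show GG β c s g 0 0 = 1
        simp [GG]
      rw [e0, e0]
      simp
    | succ n ih =>
      intro β hβ
      have hβ01 : ∀ j n, 0 ≤ β j n ∧ β j n ≤ 1 := fun j n => (hβ j).2 n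
      rw [It_GG β c s hs m hβ01 (fun j => ind (V j)) hV01 n, It_GG β c s hs m hβ01 (fun j => P j) hP01 n]
      have hcard : ((s n).card : ℝ) ≤ n := by
        have := card_le_card (hs n)
        rw [card_range] at this
        exact_mod_cast this
      set fV : (ℕ → ℤ) → ℝ := GG β c s (fun j => ind (V j)) n with hfV
      set fP : (ℕ → ℤ) → ℝ := GG β c s (fun j => P j) n with hfP
      set hhV : (ℕ → ℤ) → ℝ := innG β c s (m n) (ind (V n)) n with hhhV
      set hhP : (ℕ → ℤ) → ℝ := innG β c s (m n) (P n) n with hhhP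
      have b1 : ∀ a, 0 ≤ fV a ∧ fV a ≤ 1 := GG_01 β c s hβ01 _ hV01 n
      have b2 : ∀ a, 0 ≤ fP a ∧ fP a ≤ 1 := GG_01 β c s hβ01 _ hP01 n
      have b3 : ∀ a, 0 ≤ hhV a ∧ hhV a ≤ 1 := innG_01 β c s (hm n) hβ01 _ (hV01 n) n
      have b4 : ∀ a, 0 ≤ hhP a ∧ hhP a ≤ 1 := innG_01 β c s (hm n) hβ01 _ (hP01 n) n
      -- step 1
      have s1 : |It m n (fun a => fV a * hhV a) - It m n (fun a => fV a * hhP a)| ≤ n * (ε + ε) := by
        obtain ⟨N, hN, hdep, hNa⟩ := oneS hnul hone (m n) (hm n) (V n) (P n) ε hε (happ n) (β n) (hβ n) (s n) (c n)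
          (hc n) ε hε
        refine It_sub_abs hm n (fun a => abs01 (mul01 (b1 a) (b3 a))) (fun a => abs01 (mul01 (b1 a) (b4 a))) ?_
        refine It_gen hnul hm n (C := 2) (fun a => ?_) N hN hdep fun a ha => ?_
        · rw [abs_abs]
          refine (abs_sub _ _).trans ?_
          have h1 := abs01 (mul01 (b1 a) (b3 a))
          have h2 := abs01 (mul01 (b1 a) (b4 a))
          linarith
        · rw [← mul_sub, abs_mul]
          have h1 : |hhV a - hhP a| ≤ (s n).card * (ε + ε) := hNa a (fun u hu => ha u (mem_range.1 (hs n hu)))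
          have h2 : |fV a| ≤ 1 := abs01 (b1 a)
          calc |fV a| * |hhV a - hhP a| ≤ 1 * |hhV a - hhP a| :=
                mul_le_mul_of_nonneg_right h2 (abs_nonneg _)
            _ ≤ n * (ε + ε) := by
                rw [one_mul]
                exact h1.trans (mul_le_mul_of_nonneg_right hcard (by linarith))
      obtain ⟨F, w, hw0, hw1, hsepa⟩ := sepS hsep (m n) (hm n) (P n) (β n) (hP n) (fun x => hβ01 n x) (s n) (c n) ε hε
      set W : (ℕ → ℤ) → ℝ := fun a => ∑ t ∈ F, w t * ∏ i ∈ s n, P n (t - c n i * a i) with hW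
      have bq : ∀ (t : ℤ) (a : ℕ → ℤ), 0 ≤ ∏ i ∈ s n, P n (t - c n i * a i) ∧
          ∏ i ∈ s n, P n (t - c n i * a i) ≤ 1 := fun t a => prod01 _ _ fun i _ => hP01 n _
      have bW : ∀ a, |W a| ≤ 1 := by
        intro a
        have h0 : 0 ≤ W a := sum_nonneg fun t _ => mul_nonneg (hw0 t) (bq t a).1
        rw [abs_of_nonneg h0]
        refine le_trans (sum_le_sum fun t _ => ?_) hw1
        exact mul_le_of_le_one_right (hw0 t) (bq t a).2
      -- step 2
      have s2 : ∀ f : (ℕ → ℤ) → ℝ, (∀ a, 0 ≤ f a ∧ f a ≤ 1) →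
          |It m n (fun a => f a * hhP a) - It m n (fun a => f a * W a)| ≤ ε := by
        intro f hf
        have hfW : ∀ a, |f a * W a| ≤ 1 := fun a => by
          rw [abs_mul]
          exact mul_le_one₀ (abs01 (hf a)) (abs_nonneg _) (bW a)
        refine It_sub_abs hm n (fun a => abs01 (mul01 (hf a) (b4 a))) hfW ?_
        have h1 : ∀ a, |f a * hhP a - f a * W a| ≤ ε := fun a => by
          rw [← mul_sub, abs_mul]
          calc |f a| * |hhP a - W a| ≤ 1 * |hhP a - W a| :=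
                mul_le_mul_of_nonneg_right (abs01 (hf a)) (abs_nonneg _)
            _ ≤ ε := by rw [one_mul]; exact hsepa a
        have h2 := It_mono hm n (F := fun a => |f a * hhP a - f a * W a|) (G := fun _ => ε) (C := ε) (D := ε)
          (fun a => by rw [abs_abs]; exact h1 a) (fun a => (abs_of_pos hε).le) h1
        rwa [It_const hm] at h2
      -- the new functions β
      set β' : ℤ → ℕ → (ℤ →ᵇ ℝ) := fun t i => if i ∈ s n then β i * affR t (-(c n i : ℤ)) (P n) else β i with hβ'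
      have hTr : ∀ t i, Tr01 (β' t i) := by
        intro t i
        simp only [hβ']
        split_ifs
        · exact tr01_mul htrg (hβ i) (hP n) t _
        · exact hβ i
      -- step 3
      have s3 : ∀ g : ℕ → ℤ → ℝ, (∀ j n, 0 ≤ g j n ∧ g j n ≤ 1) →
          It m n (fun a => GG β c s g n a * W a) =
            ∑ t ∈ F, w t * It m n (GG (β' t) c s g n) := by
        intro g hg
        have hbb : ∀ (t : ℤ) (a : ℕ → ℤ), |GG (β' t) c s g n a| ≤ 1 :=
          fun t a => abs01 (GG_01 _ c s (fun j x => (hTr t j).2 x) g hg n a)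
        have e : (fun a => GG β c s g n a * W a) = fun a => ∑ t ∈ F, (w t * GG (β' t) c s g n a) := by
          funext a
          rw [hW]
          simp only
          rw [mul_sum]
          refine sum_congr rfl fun t _ => ?_
          rw [hβ', ← GG_absorb β c s g (P n) t (c n) n (s n) (hs n) a]
          ring
        rw [e, It_sum hm n F _ (C := ∑ t ∈ F, w t)]
        · exact sum_congr rfl fun t _ => It_smul hm n (hbb t) _
        · intro t ht a
          rw [abs_mul, abs_of_nonneg (hw0 t)]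
          refine (mul_le_of_le_one_right (hw0 t) (hbb t a)).trans ?_
          exact single_le_sum (f := w) (fun i _ => hw0 i) ht
      have s4 : |It m n (fun a => fV a * W a) - It m n (fun a => fP a * W a)| ≤ 2 * n ^ 2 * ε := by
        rw [hfV, hfP, s3 _ hV01, s3 _ hP01, ← sum_sub_distrib]
        refine (abs_sum_le_sum_abs _ _).trans ?_
        have h1 : ∀ t ∈ F, |w t * It m n (GG (β' t) c s (fun j => ind (V j)) n) -
            w t * It m n (GG (β' t) c s (fun j => P j) n)| ≤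
            w t * (2 * n ^ 2 * ε) := fun t _ => by
          rw [← mul_sub, abs_mul, abs_of_nonneg (hw0 t)]
          exact mul_le_mul_of_nonneg_left (ih _ fun j => hTr t j) (hw0 t)
        refine (sum_le_sum h1).trans ?_
        rw [← sum_mul]
        exact mul_le_of_le_one_left (by positivity) hw1
      have t1 := s2 fV b1
      have t2 := s2 fP b2
      rw [abs_le] at s1 s4 t1 t2 ⊢
      push_cast
      constructor <;> nlinarith [s1.1, s1.2, s4.1, s4.2, t1.1, t1.2, t2.1, t2.2, mul_nonneg (Nat.cast_nonneg (α := ℝ) n) hε.le]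
  intro β hβ
  exact key n β hβ

end Pool.Agent.W142.TF
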