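import Pool.Agent.W142.TF.Win
import Pool.Agent.H732R3.QuarterB
import Pool.Agent.W59.GB.Cls

set_option autoImplicit false
open Filter Topology Finset

/-! Project TF: two fifths of the multiples of every sufficiently divisible number are gaps. -/

namespace Pool.Agent.W142.TF

open Pool.Agent.H947R3.GM Pool.Agent.W59.GB

theorem admN_of {n K q M₁ : ℕ} (hM₁ : 0 < M₁) (hdiv : ∀ p, p.Prime → p ≤ n * K → p ∣ M₁) (Q : ℕ → ℕ) (A : ℕ → ℕ → ℤ)
    (hQ : ∀ j, 1 ≤ Q j) (hinj : ∀ j, Set.InjOn (A j) {k | k < K})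
    (hcross : ∀ i j, i < j → j < n → ∀ k k', k < K → k' < K → (Q j : ℤ) * A j k - (Q i : ℤ) * A i k' ≠ 0)
    (H : Fin n → Fin K → ℕ) (C : ℤ) (hH : ∀ g i, (H g i : ℤ) = M₁ * (Q g * A g i + C)) : AdmN q H := by
  classical
  have hM : (M₁ : ℤ) ≠ 0 := by exact_mod_cast hM₁.ne'
  refine ⟨?_, ?_⟩
  · rintro ⟨g, i⟩ ⟨g', i'⟩ h
    have h' : H g i = H g' i' := h
    have e : (M₁ : ℤ) * (Q g * A g i + C) = M₁ * (Q g' * A g' i' + C) := by rw [← hH, ← hH, h']
    have e1 := mul_left_cancel₀ hM e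
    have e2 : (Q g : ℤ) * A g i = Q g' * A g' i' := by linarith
    rcases lt_trichotomy g g' with hg | hg | hg
    · exact absurd (by rw [e2]; ring) (hcross g g' hg g'.2 i' i i'.2 i.2)
    · subst hg
      have hQ0 : (Q g : ℤ) ≠ 0 := by have := hQ g; omega
      have e3 := mul_left_cancel₀ hQ0 e2
      have e4 := hinj g i.2 i'.2 e3
      rw [Fin.ext e4]
    · exact absurd (by rw [e2]; ring) (hcross g' g hg g.2 i i' i.2 i'.2)
  · intro p hp hpq
    by_cases hle : p ≤ n * K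
    · refine ⟨1, fun g i hd => ?_⟩
      have h1 : (p : ℤ) ∣ (H g i : ℤ) := by
        rw [hH]
        exact Dvd.dvd.mul_right (Int.natCast_dvd_natCast.2 (hdiv p hp hle)) _
      have h2 : (p : ℤ) ∣ 1 := (dvd_add_left h1).1 hd
      have h3 := Int.eq_one_of_dvd_one (by positivity) h2
      exact hp.one_lt.ne' (by exact_mod_cast h3)
    · haveI : Fact p.Prime := ⟨hp⟩
      have : ∃ y : ZMod p, y ∉ (univ : Finset (Fin n × Fin K)).image (fun x => -(H x.1 x.2 : ZMod p)) := by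
        by_contra hcon
        push Not at hcon
        have h1 : (univ : Finset (ZMod p)) ⊆ (univ : Finset (Fin n × Fin K)).image (fun x => -(H x.1 x.2 : ZMod p)) :=
          fun y _ => hcon y
        have h2 := (card_le_card h1).trans card_image_le
        rw [card_univ, ZMod.card, card_univ, Fintype.card_prod, Fintype.card_fin, Fintype.card_fin] at h2
        omega
      obtain ⟨y, hy⟩ := this
      refine ⟨y.val, fun g i hd => hy ?_⟩
      rw [mem_image]
      refine ⟨(g, i), mem_univ _, ?_⟩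
      rw [← ZMod.intCast_zmod_eq_zero_iff_dvd] at hd
      push_cast at hd
      rw [ZMod.natCast_zmod_val] at hd
      linear_combination -hd

/-- a pair of integers of which the difference is not in the complement of `G` -/
theorem not_Cpl {G : Set ℕ} {M₁ : ℕ} {x y : ℤ} {a b : ℕ} (C : ℤ) (ha : (a : ℤ) = M₁ * (x + C)) (hb : (b : ℤ) = M₁ * (y + C))
    (h : (M₁ : ℤ) * (x - y) ∈ Cpl G) : a ≠ b ∧ (a < b → b - a ∉ G) ∧ (b < a → a - b ∉ G) := by
  have e : (M₁ : ℤ) * (x - y) = (a : ℤ) - b := by rw [ha, hb]; ring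
  rw [e] at h
  obtain ⟨h1, h2⟩ := h
  refine ⟨fun hab => h1 (by rw [hab, sub_self]), fun hlt => ?_, fun hlt => ?_⟩
  · have : ((a : ℤ) - b).natAbs = b - a := by omega
    rwa [this] at h2
  · have : ((a : ℤ) - b).natAbs = a - b := by omega
    rwa [this] at h2

theorem tf (hmai : S_maiF) (q a : ℕ) (hq : 0 < q) (ha : a.Coprime q) (ε : ℝ) (hε : 0 < ε) :
    ∃ M : ℕ, 0 < M ∧ ∀ N : ℕ, 0 < N → M ∣ N → ∃ L : ℕ, ∀ T : ℕ, L ≤ T → ∀ u : ℕ,
      (2 / 5 - ε) * T ≤ ({k : ℕ | u < k ∧ k ≤ u + T ∧ N * k ∈ GapB q a}.ncard : ℝ) := by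
  classical
  obtain ⟨K, hK, hcon⟩ := consecB Pool.Agent.H732R3.BigQ.quarterB hq ha
  refine windows (GapB q a) (5 * K).factorial (Nat.factorial_pos _) (2 / 5) ε fun hall => ?_
  obtain ⟨Q, A, hQ, hinj, hcr⟩ := hmai {k : ℤ | (((5 * K).factorial : ℕ) : ℤ) * k ∈ Cpl (GapB q a)} ε hε
    (fun M hM => by
      obtain ⟨Q, h1, h2, h3⟩ := hall M hM
      refine ⟨Q, h1, h2, fun L₀ => ?_⟩
      obtain ⟨L, hL, u, hu⟩ := h3 L₀
      refine ⟨L, hL, u, le_trans (le_of_eq ?_) hu⟩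
      norm_num) K
  obtain ⟨H, C, hH⟩ := points 5 K (5 * K).factorial Q A
  have hadm : AdmN q H := admN_of (Nat.factorial_pos _) (fun p hp hle => Nat.dvd_factorial hp.pos hle) Q A hQ hinj
    (fun i j hij hj k k' hk hk' h0 => by
      have h := hcr i j hij hj k k' hk hk'
      rw [h0] at h
      exact h.1 (mul_zero _)) H C hH
  obtain ⟨g, g', i, i', hne, hlt, hG⟩ := hcon H hadm
  rcases lt_or_gt_of_ne hne with h | h
  · have := not_Cpl C (hH g' i') (hH g i) (hcr g g' h g'.2 i' i i'.2 i.2)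
    exact this.2.2 hlt hG
  · have := not_Cpl C (hH g i) (hH g' i') (hcr g' g h g.2 i i' i.2 i'.2)
    exact this.2.1 hlt hG

end Pool.Agent.W142.TF
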