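import Pool.Agent.W142.TF.Stm
import Pool.Agent.W27.FB.Chain

set_option autoImplicit false
open Filter Topology Finset
open scoped BoundedContinuousFunction

/-! Project TF: iterated means. -/

namespace Pool.Agent.W142.TF

open Pool.Agent.W634.BQ Pool.Agent.W505.BQ Pool.Agent.W27.FB

theorem toB_apply {g : ℤ → ℝ} {C : ℝ} (h : ∀ n, |g n| ≤ C) (n : ℤ) : toB g n = g n := by
  unfold toB
  rw [dif_pos ⟨C, h⟩]
  rfl

theorem toB_coe (f : ℤ →ᵇ ℝ) : toB (fun n => f n) = f := by
  ext n
  refine toB_apply (C := ‖f‖) (fun n => ?_) n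
  have := f.norm_coe_le_norm n
  rwa [Real.norm_eq_abs] at this

theorem toB_eq {g : ℤ → ℝ} {C : ℝ} (h : ∀ n, |g n| ≤ C) (f : ℤ →ᵇ ℝ) (hf : ∀ n, f n = g n) : toB g = f := by
  ext n
  rw [toB_apply h, hf]

theorem toB_add {g h : ℤ → ℝ} {C D : ℝ} (hg : ∀ n, |g n| ≤ C) (hh : ∀ n, |h n| ≤ D) :
    toB (fun n => g n + h n) = toB g + toB h := by
  ext n
  rw [toB_apply (C := C + D) (fun n => (abs_add_le _ _).trans (add_le_add (hg n) (hh n))),
    BoundedContinuousFunction.coe_add, Pi.add_apply, toB_apply hg, toB_apply hh]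

theorem toB_smul {g : ℤ → ℝ} {C : ℝ} (hg : ∀ n, |g n| ≤ C) (c : ℝ) :
    toB (fun n => c * g n) = c • toB g := by
  ext n
  rw [toB_apply (C := |c| * C) (fun n => by
    rw [abs_mul]; exact mul_le_mul_of_nonneg_left (hg n) (abs_nonneg c)),
    BoundedContinuousFunction.coe_smul]
  simp only [smul_eq_mul]
  rw [toB_apply hg]

theorem m_toB_mono {m : (ℤ →ᵇ ℝ) →ₗ[ℝ] ℝ} (hm : IsMean m) {g h : ℤ → ℝ} {C D : ℝ} (hg : ∀ n, |g n| ≤ C)
    (hh : ∀ n, |h n| ≤ D) (hgh : ∀ n, g n ≤ h n) : m (toB g) ≤ m (toB h) :=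
  m_mono hm fun n => by rw [toB_apply hg, toB_apply hh]; exact hgh n

theorem m_toB_const {m : (ℤ →ᵇ ℝ) →ₗ[ℝ] ℝ} (hm : IsMean m) (c : ℝ) : m (toB (fun _ => c)) = c := by
  rw [toB_eq (C := |c|) (fun _ => le_rfl) (c • 1) (fun n => by simp), m_const hm]

theorem m_toB_abs {m : (ℤ →ᵇ ℝ) →ₗ[ℝ] ℝ} (hm : IsMean m) {g : ℤ → ℝ} {C : ℝ} (hg : ∀ n, |g n| ≤ C) :
    |m (toB g)| ≤ C := by
  rw [abs_le]
  have h1 := m_toB_mono hm (g := fun _ => -C) (h := g) (C := |C|) (fun n => by rw [abs_neg]) hg
    (fun n => (abs_le.1 (hg n)).1)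
  have h2 := m_toB_mono hm (g := g) (h := fun _ => C) hg (D := |C|) (fun n => le_rfl)
    (fun n => (abs_le.1 (hg n)).2)
  rw [m_toB_const hm] at h1 h2
  exact ⟨h1, h2⟩

theorem m_toB_shift {m : (ℤ →ᵇ ℝ) →ₗ[ℝ] ℝ} (hm : IsMean m) {g : ℤ → ℝ} {C : ℝ} (hg : ∀ n, |g n| ≤ C) (s : ℤ) :
    m (toB (fun n => g (n + s))) = m (toB g) := by
  rw [← m_sh hm s (toB g)]
  congr 1
  refine toB_eq (C := C) (fun n => hg _) _ fun n => ?_
  rw [sh_apply, toB_apply hg]

variable {m : ℕ → ((ℤ →ᵇ ℝ) →ₗ[ℝ] ℝ)}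

theorem It_abs (hm : ∀ j, IsMean (m j)) (n : ℕ) : ∀ {F : (ℕ → ℤ) → ℝ} {C : ℝ}, (∀ a, |F a| ≤ C) →
    |It m n F| ≤ C := by
  induction n with
  | zero => intro F C hF; exact hF 0
  | succ n ih =>
    intro F C hF
    exact ih fun a => m_toB_abs (hm n) fun t => hF _

theorem It_mono (hm : ∀ j, IsMean (m j)) (n : ℕ) : ∀ {F G : (ℕ → ℤ) → ℝ} {C D : ℝ}, (∀ a, |F a| ≤ C) →
    (∀ a, |G a| ≤ D) → (∀ a, F a ≤ G a) → It m n F ≤ It m n G := by
  induction n with
  | zero => intro F G C D _ _ h; exact h 0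
  | succ n ih =>
    intro F G C D hF hG h
    exact ih (fun a => m_toB_abs (hm n) fun t => hF _) (fun a => m_toB_abs (hm n) fun t => hG _)
      fun a => m_toB_mono (hm n) (fun t => hF _) (fun t => hG _) fun t => h _

theorem It_add (hm : ∀ j, IsMean (m j)) (n : ℕ) : ∀ {F G : (ℕ → ℤ) → ℝ} {C D : ℝ}, (∀ a, |F a| ≤ C) →
    (∀ a, |G a| ≤ D) → It m n (fun a => F a + G a) = It m n F + It m n G := by
  induction n with
  | zero => intro F G C D _ _; rfl
  | succ n ih =>
    intro F G C D hF hG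
    show It m n _ = It m n _ + It m n _
    rw [← ih (fun a => m_toB_abs (hm n) fun t => hF _) (fun a => m_toB_abs (hm n) fun t => hG _)]
    congr 1
    funext a
    rw [toB_add (fun t => hF _) (fun t => hG _), map_add]

theorem It_smul (hm : ∀ j, IsMean (m j)) (n : ℕ) : ∀ {F : (ℕ → ℤ) → ℝ} {C : ℝ}, (∀ a, |F a| ≤ C) → ∀ c : ℝ,
    It m n (fun a => c * F a) = c * It m n F := by
  induction n with
  | zero => intro F C _ c; rfl
  | succ n ih =>
    intro F C hF c
    show It m n _ = c * It m n _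
    rw [← ih (fun a => m_toB_abs (hm n) fun t => hF _)]
    congr 1
    funext a
    rw [toB_smul (fun t => hF _), map_smul, smul_eq_mul]

theorem It_const (hm : ∀ j, IsMean (m j)) (n : ℕ) (c : ℝ) : It m n (fun _ => c) = c := by
  induction n with
  | zero => rfl
  | succ n ih =>
    show It m n (fun _ => m n (toB (fun _ => c))) = c
    rw [m_toB_const (hm n)]
    exact ih

theorem It_zero (hm : ∀ j, IsMean (m j)) (n : ℕ) : It m n (fun _ => 0) = 0 := It_const hm n 0

theorem It_sum (hm : ∀ j, IsMean (m j)) (n : ℕ) {ι : Type*} (s : Finset ι) (F : ι → (ℕ → ℤ) → ℝ) {C : ℝ}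
    (hF : ∀ i ∈ s, ∀ a, |F i a| ≤ C) : It m n (fun a => ∑ i ∈ s, F i a) = ∑ i ∈ s, It m n (F i) := by
  classical
  induction s using Finset.induction_on with
  | empty => simp [It_zero hm]
  | insert i s hi ih =>
    have h1 : ∀ j ∈ s, ∀ a, |F j a| ≤ C := fun j hj => hF j (mem_insert_of_mem hj)
    have h2 : ∀ a, |∑ j ∈ s, F j a| ≤ s.card * C := fun a => by
      refine (abs_sum_le_sum_abs _ _).trans ?_
      have := sum_le_card_nsmul s (fun j => |F j a|) C (fun j hj => h1 j hj a)
      rwa [nsmul_eq_mul] at this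
    simp only [sum_insert hi]
    rw [It_add hm n (hF i (mem_insert_self _ _)) h2, ih h1]

theorem It_sub_abs (hm : ∀ j, IsMean (m j)) (n : ℕ) {F G : (ℕ → ℤ) → ℝ} {C D κ : ℝ} (hF : ∀ a, |F a| ≤ C)
    (hG : ∀ a, |G a| ≤ D) (h : It m n (fun a => |F a - G a|) ≤ κ) : |It m n F - It m n G| ≤ κ := by
  have hb : ∀ a, |(|F a - G a|)| ≤ C + D := fun a => by
    rw [abs_abs]
    exact (abs_sub _ _).trans (add_le_add (hF a) (hG a))
  have hCD : ∀ a, |G a + (|F a - G a|)| ≤ D + (C + D) := fun a =>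
    (abs_add_le _ _).trans (add_le_add (hG a) (hb a))
  have hCD' : ∀ a, |F a + (|F a - G a|)| ≤ C + (C + D) := fun a =>
    (abs_add_le _ _).trans (add_le_add (hF a) (hb a))
  have h1 : It m n F ≤ It m n (fun a => G a + |F a - G a|) :=
    It_mono hm n hF hCD fun a => by have := le_abs_self (F a - G a); linarith
  have h2 : It m n G ≤ It m n (fun a => F a + |F a - G a|) :=
    It_mono hm n hG hCD' fun a => by have := neg_abs_le (F a - G a); linarith
  rw [It_add hm n hG hb] at h1
  rw [It_add hm n hF hb] at h2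
  rw [abs_le]
  constructor <;> linarith

/-- shift invariance -/
theorem It_shift (hm : ∀ j, IsMean (m j)) (n : ℕ) : ∀ {F : (ℕ → ℤ) → ℝ} {C : ℝ}, (∀ a, |F a| ≤ C) →
    ∀ s : ℕ → ℤ, (∀ j, n ≤ j → s j = 0) → It m n (fun a => F (a + s)) = It m n F := by
  induction n with
  | zero =>
    intro F C _ s hs
    show F (0 + s) = F 0
    congr 1
    funext j
    rw [Pi.add_apply, hs j (Nat.zero_le j), add_zero]
  | succ n ih =>
    intro F C hF s hs
    obtain ⟨s', hs'⟩ : ∃ s', s' = Function.update s n 0 := ⟨_, rfl⟩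
    have h1 : ∀ j, n ≤ j → s' j = 0 := by
      intro j hj
      rw [hs']
      by_cases h : j = n
      · rw [h, Function.update_self]
      · rw [Function.update_of_ne h]
        exact hs j (by omega)
    show It m n (fun a => m n (toB (fun t => F (Function.update a n t + s)))) =
      It m n (fun a => m n (toB (fun t => F (Function.update a n t))))
    have h2 := ih (F := fun a => m n (toB (fun t => F (Function.update a n t)))) (C := C)
      (fun a => m_toB_abs (hm n) fun t => hF _) s' h1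
    rw [← h2]
    congr 1
    funext a
    rw [← m_toB_shift (hm n) (g := fun t => F (Function.update (a + s') n t)) (fun t => hF _) (s n)]
    congr 2
    funext t
    congr 1
    funext j
    rw [Pi.add_apply]
    by_cases h : j = n
    · rw [h, Function.update_self, Function.update_self]
    · rw [Function.update_of_ne h, Function.update_of_ne h, Pi.add_apply, hs', Function.update_of_ne h]

/-- functions which are small at generic points have a small iterated mean -/
theorem It_gen (hnul : S_nul) (hm : ∀ j, IsMean (m j)) (n : ℕ) : ∀ {F : (ℕ → ℤ) → ℝ} {C κ : ℝ},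
    (∀ a, |F a| ≤ C) → (N : ℕ → (ℕ → ℤ) → Set ℤ) → (∀ u a, Null (N u a)) →
    (∀ u a b, (∀ j < u, a j = b j) → N u a = N u b) →
    (∀ a, (∀ u < n, a u ∉ N u a) → F a ≤ κ) → It m n F ≤ κ := by
  induction n with
  | zero => intro F C κ _ N _ _ h; exact h 0 (fun u hu => absurd hu (Nat.not_lt_zero u))
  | succ n ih =>
    intro F C κ hF N hN hdep h
    refine ih (fun a => m_toB_abs (hm n) fun t => hF _) N hN hdep fun a ha => ?_
    have hC : 0 ≤ C := (abs_nonneg _).trans (hF 0)
    have h1 : m n (toB (fun t => F (Function.update a n t))) ≤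
        m n (κ • 1 + (C + |κ|) • ind (N n a)) := by
      refine m_mono (hm n) fun t => ?_
      rw [toB_apply (fun t => hF _)]
      simp only [BoundedContinuousFunction.coe_add, Pi.add_apply, BoundedContinuousFunction.coe_smul, smul_eq_mul,
        BoundedContinuousFunction.coe_one, Pi.one_apply, mul_one]
      by_cases ht : t ∈ N n a
      · rw [ind_mem ht, mul_one]
        have h2 := (abs_le.1 (hF (Function.update a n t))).2
        have h3 := neg_abs_le κ
        linarith
      · rw [ind_notMem ht, mul_zero, add_zero]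
        refine h _ fun u hu => ?_
        rcases Nat.lt_succ_iff_lt_or_eq.1 hu with hu' | hu'
        · have e : N u (Function.update a n t) = N u a := hdep u _ _ fun j hj =>
            Function.update_of_ne (by omega) _ _
          rw [e, Function.update_of_ne (by omega)]
          exact ha u hu'
        · subst hu'
          have e : N u (Function.update a u t) = N u a := hdep u _ _ fun j hj =>
            Function.update_of_ne (by omega) _ _
          rw [e, Function.update_self]
          exact ht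
    rw [map_add, m_const (hm n), map_smul, hnul.1 (m n) (hm n) (N n a) (hN n a), smul_zero, add_zero] at h1
    exact h1

end Pool.Agent.W142.TF
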