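import Pool.Agent.W142.TF.Stm2

set_option autoImplicit false
open Filter Topology Finset
open scoped BoundedContinuousFunction

/-! Project TF: statements of the third batch (lower bound for the almost periodic configuration). -/

namespace Pool.Agent.W142.TF

open Pool.Agent.W634.BQ Pool.Agent.W505.BQ Pool.Agent.W27.FB

/-- the indicator function of the residue class of `r` modulo `q` -/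
noncomputable def cls (q : ℕ) (r : ℤ) : ℤ →ᵇ ℝ := ind {a : ℤ | (q : ℤ) ∣ a - r}

/-- `P` is a finite combination of characters of which those of finite order have order dividing `q` -/
def Tor (P : ℤ →ᵇ ℝ) (q : ℕ) : Prop := ∃ (Λ : Finset Circle) (c : Circle → ℂ),
  (∀ n : ℤ, ((P n : ℝ) : ℂ) = ∑ θ ∈ Λ, c θ * ((θ ^ n : Circle) : ℂ)) ∧
    ∀ θ ∈ Λ, (∃ k : ℕ, 0 < k ∧ θ ^ k = 1) → θ ^ q = 1

/-- TF-CLS : residue classes, and orders of the characters of a trigonometric polynomial -/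
def S_cls : Prop := (∀ (q : ℕ) (r : ℤ), 1 ≤ q → Tr01 (cls q r)) ∧
  (∀ m : (ℤ →ᵇ ℝ) →ₗ[ℝ] ℝ, IsMean m → ∀ (q : ℕ) (r : ℤ), 1 ≤ q → m (cls q r) = 1 / q) ∧
  (∀ P : ℤ →ᵇ ℝ, co P ∈ Trig → ∃ q : ℕ, 1 ≤ q ∧ Tor P q)

/-- TF-LEV : choice of a residue class on which the coarse approximation `P` is large on average and
the fine approximation `P'` is close to it -/
def S_lev : Prop := ∀ (m : (ℤ →ᵇ ℝ) →ₗ[ℝ] ℝ), IsMean m → ∀ (V : Set ℤ) (P P' : ℤ →ᵇ ℝ) (ε ε' ρ κ : ℝ), 0 < κ →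
  App m V P ε → App m V P' ε' → ρ ≤ m (ind V) → 0 ≤ ρ - ε - (ε + ε') / κ → ∀ q : ℕ, 1 ≤ q → ∃ r : ℤ,
    (ρ - ε - (ε + ε') / κ) / q ≤ m (cls q r * P) ∧ m (cls q r * ((P' - P) * (P' - P))) ≤ κ / q

/-- TF-PER : a step at which several trigonometric polynomials are almost periodic modulo a prime -/
def S_per : Prop := ∀ (n : ℕ) (P : ℕ → (ℤ →ᵇ ℝ)) (q S : ℕ → ℕ),
  (∀ j < n, Tor (P j) (q j) ∧ 1 ≤ q j ∧ 1 ≤ S j ∧ q j ∣ S j) →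
  ∃ P₀ : ℕ, ∀ p : ℕ, p.Prime → P₀ ≤ p → ∀ δ : ℝ, 0 < δ → ∃ d : ℕ, ∀ j < n,
    (∀ x : ℤ, |P j (x + S j * d * p) - P j x| ≤ δ) ∧
    ∀ x y : ℤ, (q j : ℤ) ∣ x - y →
      |∑ z ∈ range p, P j (x + S j * d * z) - ∑ z ∈ range p, P j (y + S j * d * z)| ≤ δ * p

/-- TF-LOC : few bad residues -/
def S_loc : Prop := ∀ (p l : ℕ), p.Prime → 5 * l + 1 ≤ p → ∀ η : ℝ, 0 < η → (2 / 5 - 2 * η) * p ≤ 2 * l →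
  ∀ Φ Ψ : ℕ → ℕ → ℤ → ℝ, (∀ i j z, 0 ≤ Ψ i j z ∧ Ψ i j z ≤ 1) →
  (∀ i j : ℕ, i < j → j < 5 → (∀ z : ℕ, z < p → |Ψ i j z - Ψ i j ((z : ℤ) - p)| ≤ η) ∧
    (3 / 5 + 6 * η) * p ≤ ∑ z ∈ range p, Ψ i j z ∧
    ∑ z ∈ range p, ((Φ i j z - Ψ i j z) ^ 2 + (Φ i j ((z : ℤ) - p) - Ψ i j ((z : ℤ) - p)) ^ 2) ≤ η ^ 3 * p) →
  ∃ z : ℕ → ℕ, (∀ j, z j < p) ∧ ∀ i j : ℕ, i < j → j < 5 → η < Φ i j ((z j : ℤ) - z i)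

/-- TF-LOW : lower bound for the iterated mean of the almost periodic configuration -/
def S_low : Prop := ∀ (m : ℕ → ((ℤ →ᵇ ℝ) →ₗ[ℝ] ℝ)), (∀ j, IsMean (m j)) → ∀ (P : ℕ → (ℤ →ᵇ ℝ)) (q S : ℕ → ℕ)
  (c : ℕ → ℕ → ℕ) (η : ℝ), 0 < η →
  (∀ j < 5, (∀ x, 0 ≤ P j x ∧ P j x ≤ 1) ∧ Tor (P j) (q j) ∧ 1 ≤ q j ∧ 1 ≤ S j ∧ q j ∣ S j) →
  (∀ i j, i < j → j < 5 → q j ∣ c j i ∧ S j = c j i * S i) →
  ∃ c₀ : ℝ, 0 < c₀ ∧ ∀ (P' : ℕ → (ℤ →ᵇ ℝ)) (r : ℕ → ℤ), (∀ j < 5, ∀ x, 0 ≤ P' j x ∧ P' j x ≤ 1) →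
    (∀ j, 1 ≤ j → j < 5 → (3 / 5 + 8 * η) / q j ≤ m j (cls (q j) (r j) * P j) ∧
      m j (cls (q j) (r j) * ((P' j - P j) * (P' j - P j))) ≤ η ^ 3 / 40 / q j) →
    c₀ ≤ It m 5 (FP (fun j => cls (q j) (r j)) P' c 5)

/-- TF-MAI : the conclusion for sets all of whose dilates have upper Banach density above `3/5` -/
def S_mai : Prop := ∀ (U : Set ℤ) (ε : ℝ), 0 < ε →
  (∀ Q : ℕ, 1 ≤ Q → ∀ L₀ : ℕ, ∃ L : ℕ, L₀ ≤ L ∧ ∃ u : ℤ,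
    (3 / 5 + ε) * L ≤ ({n : ℕ | n < L ∧ (Q : ℤ) * (u + (n : ℤ)) ∈ U}.ncard : ℝ)) →
  ∀ K : ℕ, ∃ (Q : ℕ → ℕ) (A : ℕ → ℕ → ℤ), (∀ j, 1 ≤ Q j) ∧ (∀ j, Set.InjOn (A j) {k | k < K}) ∧
    ∀ i j, i < j → j < 5 → ∀ k k', k < K → k' < K → (Q j : ℤ) * A j k - (Q i : ℤ) * A i k' ∈ U

end Pool.Agent.W142.TF
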