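import Pool.Agent.W142.TF.FinG

set_option autoImplicit false
open Filter Topology Finset

/-! Project HF: blocked shifts, differences `p_{n+j} - p_n` with bounded `j`. -/

namespace Pool.Agent.W142.TF

open Pool.Agent.H947R3.GM Pool.Agent.H732R3.BigQ Pool.Agent.W59.GB

/-- the `k` such that `q * k` is the difference of many pairs of primes that are `a` modulo `q` with at most
`J` primes in between (the larger one included) -/
def DiffJ (J q a : ℕ) : Set ℕ := {k | 0 < k ∧ Big {n : ℕ | n.Prime ∧ n ≡ a [MOD q] ∧ (n + q * k).Prime ∧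
  ((Ioc n (n + q * k)).filter Nat.Prime).card ≤ J}}

/-- the coloured Maynard-Tao theorem for classes of shifts, all other shifts being blocked -/
theorem classes_block {n K : ℕ} (hQ : ∀ (a b : Fin n → Fin K → ℤ), (∀ g i, 0 < a g i) →
    Function.Injective (fun x : Fin n × Fin K => (a x.1 x.2, b x.1 x.2)) →
    (∀ p : ℕ, p.Prime → ∃ n : ℤ, ∀ g i, ¬ ((p : ℤ) ∣ a g i * n + b g i)) →
    ∃ (S : Finset (Fin n)) (c : Fin n → Fin K), n ≤ 4 * S.card ∧
      Big {n : ℕ | ∀ g ∈ S, 0 < a g (c g) * (n : ℤ) + b g (c g) ∧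
        Prime (a g (c g) * (n : ℤ) + b g (c g))})
    {N a : ℕ} (hN : 0 < N) (ha : a.Coprime N) (H : Fin n → Fin K → ℕ) (hH : AdmN N H) :
    ∃ (Q r M : ℕ) (S : Finset (Fin n)) (c : Fin n → Fin K), 0 < Q ∧ N ∣ Q ∧ r ≡ a [MOD N] ∧ (∀ g i, N * H g i ≤ M) ∧
      n ≤ 4 * S.card ∧
      Big {m : ℕ | (∀ g ∈ S, (Q * m + r + N * H g (c g)).Prime) ∧
        ∀ t ≤ M, (∀ g i, N * H g i ≠ t) → ¬ (Q * m + r + t).Prime} := by
  classical
  set H' : Fin n → Fin K → ℕ := fun g i => N * H g i with hH'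
  have hinjH' : Function.Injective (fun x : Fin n × Fin K => H' x.1 x.2) := by
    intro x y hxy
    exact hH.1 (Nat.eq_of_mul_eq_mul_left hN hxy)
  -- a bound for the shifts
  obtain ⟨M, hM⟩ : ∃ M, ∀ g i, H' g i ≤ M :=
    ⟨univ.sup fun x : Fin n × Fin K => H' x.1 x.2, fun g i =>
      le_sup (f := fun x : Fin n × Fin K => H' x.1 x.2) (mem_univ (g, i))⟩
  set q : ℕ → ℕ := fun t => Nat.nth Nat.Prime (M + N + t) with hq
  have hqp : ∀ t, (q t).Prime := fun t => Nat.prime_nth_prime _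
  have hqM : ∀ t, M + N + t < q t := fun t => by
    have := Nat.add_two_le_nth_prime (M + N + t)
    simp only [hq]; omega
  have hqinj : Function.Injective q := by
    intro s t hst
    have := Nat.nth_injective Nat.infinite_setOfPred_prime hst
    omega
  set U : Finset ℕ := (range (M + 1)).filter fun t => ∀ g i, H' g i ≠ t with hU
  have hpair : Set.Pairwise (U : Set ℕ) (Function.onFun Nat.Coprime q) := by
    intro s _ t _ hst
    exact (Nat.coprime_primes (hqp s) (hqp t)).2 fun h => hst (hqinj h)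
  obtain ⟨r₀, hr₀⟩ := Nat.chineseRemainderOfFinset (fun t => q t - t) q U
    (fun t _ => (hqp t).ne_zero) hpair
  set Q₀ : ℕ := ∏ t ∈ U, q t with hQ₀def
  have hQ₀ : 0 < Q₀ := prod_pos fun t _ => (hqp t).pos
  have hcopN : Nat.Coprime Q₀ N := by
    refine Nat.Coprime.prod_left fun t _ => ?_
    rw [Nat.Prime.coprime_iff_not_dvd (hqp t)]
    intro hd
    have h1 := Nat.le_of_dvd hN hd
    have h2 := hqM t
    omega
  obtain ⟨r, hrQ, hrN⟩ := Nat.chineseRemainder hcopN r₀ a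
  have hr' : ∀ t ∈ U, q t ∣ r + t := by
    intro t ht
    have h0 : r ≡ r₀ [MOD q t] := hrQ.of_dvd (dvd_prod_of_mem q ht)
    have h1 := (h0.trans (hr₀ t ht)).add_right t
    have h2 : q t - t + t = q t := by have := hqM t; omega
    rw [h2] at h1
    exact (Nat.modEq_zero_iff_dvd.1 (h1.trans (by simp [Nat.ModEq])))
  set Q : ℕ := Q₀ * N with hQdef
  have hQ0 : 0 < Q := Nat.mul_pos hQ₀ hN
  obtain ⟨S, c, hS, hinf⟩ := hQ (fun _ _ => (Q : ℤ)) (fun g i => ((r + H' g i : ℕ) : ℤ))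
    (fun _ _ => by exact_mod_cast hQ0)
    (by
      intro x y hxy
      apply hinjH'
      simp only [Prod.mk.injEq, Nat.cast_inj, true_and] at hxy
      exact Nat.add_left_cancel hxy)
    (by
      intro p hp
      by_cases hpN : p ∣ N
      · refine ⟨0, fun g i hd => ?_⟩
        rw [mul_zero, zero_add] at hd
        have hd' : p ∣ r + N * H g i := by exact_mod_cast hd
        have h1 : p ∣ r := (Nat.dvd_add_left (hpN.mul_right _)).1 hd'
        have h2 : p ∣ a := by
          have h3 : r ≡ a [MOD p] := hrN.of_dvd hpN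
          exact (h3.dvd_iff dvd_rfl).1 h1
        have h4 : p ∣ Nat.gcd a N := Nat.dvd_gcd h2 hpN
        rw [ha] at h4
        exact hp.one_lt.ne' (Nat.dvd_one.1 h4)
      by_cases hpQ : p ∣ Q₀
      · refine ⟨0, fun g i hd => ?_⟩
        obtain ⟨t, htU, hpt⟩ := (hp.prime.dvd_finsetProd_iff _).1 hpQ
        have hpq : p = q t := (Nat.prime_dvd_prime_iff_eq hp (hqp t)).1 hpt
        rw [mul_zero, zero_add] at hd
        have hd' : q t ∣ r + H' g i := by rw [← hpq]; exact_mod_cast hd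
        have h1 := hr' t htU
        have hne : H' g i ≠ t := (mem_filter.1 htU).2 g i
        have htM : t ≤ M := by
          have := (mem_filter.1 htU).1
          rw [mem_range] at this; omega
        have h2 : (q t : ℤ) ∣ (H' g i : ℤ) - t := by
          have h3 : (q t : ℤ) ∣ ((r + H' g i : ℕ) : ℤ) - ((r + t : ℕ) : ℤ) :=
            dvd_sub (by exact_mod_cast hd') (by exact_mod_cast h1)
          push_cast at h3
          have e : (r : ℤ) + H' g i - (r + t) = H' g i - t := by ring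
          rwa [e] at h3
        have h4 : |(H' g i : ℤ) - t| < q t := by
          have := hqM t
          have h5 := hM g i
          rw [abs_lt]
          constructor <;> omega
        have h6 := Int.eq_zero_of_abs_lt_dvd h2 h4
        omega
      · obtain ⟨n₀, hn₀⟩ := hH.2 p hp hpN
        have hpQ' : ¬ p ∣ Q := fun h => (hp.dvd_mul.1 h).elim hpQ hpN
        have hcop : IsCoprime (Q : ℤ) (p : ℤ) := by
          rw [Nat.isCoprime_iff_coprime]
          exact ((Nat.Prime.coprime_iff_not_dvd hp).2 hpQ').symm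
        obtain ⟨u, v, huv⟩ := hcop
        refine ⟨u * (N * n₀ - r), fun g i hd => ?_⟩
        have hd2 : (p : ℤ) ∣ N * (n₀ + H g i) := by
          have e : (N : ℤ) * (n₀ + H g i) = ((Q : ℤ) * (u * (N * n₀ - r)) + ((r + H' g i : ℕ) : ℤ)) +
              p * (v * (N * n₀ - r)) := by
            simp only [hH']
            push_cast
            linear_combination (-(N * n₀ - (r : ℤ))) * huv
          rw [e]
          exact dvd_add hd (dvd_mul_right _ _)
        rcases (Nat.prime_iff_prime_int.1 hp).dvd_or_dvd hd2 with h1 | h1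
        · exact hpN (by exact_mod_cast h1)
        · exact hn₀ g i h1)
  refine ⟨Q, r, M, S, c, hQ0, Dvd.intro_left _ rfl, hrN, hM, hS, Big.mono ?_ (big_ge hinf 2)⟩
  rintro m ⟨hm, hm2⟩
  refine ⟨fun g hg => ?_, ?_⟩
  · have := (hm g hg).2
    rw [Nat.prime_iff_prime_int]
    push_cast at this ⊢
    rwa [add_assoc]
  · intro t ht hne hpr
    have htU : t ∈ U := by
      rw [hU, mem_filter, mem_range]; exact ⟨by omega, hne⟩
    have hqr := hr' t htU
    have hqQ : q t ∣ Q := (dvd_prod_of_mem q htU).mul_right N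
    have h1 : q t ∣ Q * m + r + t := by
      rw [add_assoc]
      exact dvd_add (hqQ.mul_right m) hqr
    have h2 : q t = Q * m + r + t := (Nat.prime_dvd_prime_iff_eq (hqp t) hpr).1 h1
    have h3 : q t ≤ Q := Nat.le_of_dvd hQ0 hqQ
    have h4 := (hqp t).pos
    nlinarith

theorem diffJ_of {n K N a Q r M : ℕ} (hN : 0 < N) (H : Fin n → Fin K → ℕ) (hQ : 0 < Q) (hNQ : N ∣ Q)
    (hr : r ≡ a [MOD N]) (hM : ∀ g i, N * H g i ≤ M) {F : Set ℕ} (hF : Big F) {g g' : Fin n} {i i' : Fin K}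
    (hlt : H g i < H g' i') (h1 : ∀ m ∈ F, (Q * m + r + N * H g i).Prime)
    (h2 : ∀ m ∈ F, (Q * m + r + N * H g' i').Prime)
    (h3 : ∀ m ∈ F, ∀ t ≤ M, (∀ g i, N * H g i ≠ t) → ¬ (Q * m + r + t).Prime) :
    H g' i' - H g i ∈ DiffJ (n * K) N a := by
  classical
  have e : ∀ m, Q * m + r + N * H g i + N * (H g' i' - H g i) = Q * m + r + N * H g' i' := by
    intro m
    have : N * H g i ≤ N * H g' i' := Nat.mul_le_mul_left _ hlt.le
    rw [Nat.mul_sub]
    omega
  refine ⟨by omega, Big.affine hF Q ((r + N * H g i : ℕ) : ℤ) hQ (fun m => Q * m + r + N * H g i) (fun m _ => by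
    push_cast; ring) fun m hm => ⟨h1 m hm, ?_, ?_, ?_⟩⟩
  · show Q * m + r + N * H g i ≡ a [MOD N]
    have h4 : Q * m ≡ 0 [MOD N] := by
      rw [Nat.modEq_zero_iff_dvd]
      exact hNQ.mul_right m
    have h5 : N * H g i ≡ 0 [MOD N] := by
      rw [Nat.modEq_zero_iff_dvd]
      exact dvd_mul_right N _
    simpa using (h4.add hr).add h5
  · rw [e]; exact h2 m hm
  · rw [e]
    have h4 : (Ioc (Q * m + r + N * H g i) (Q * m + r + N * H g' i')).filter Nat.Prime ⊆
        (univ : Finset (Fin n × Fin K)).image (fun x => Q * m + r + N * H x.1 x.2) := by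
      intro y hy
      rw [mem_filter, mem_Ioc] at hy
      obtain ⟨⟨hy1, hy2⟩, hyp⟩ := hy
      rw [mem_image]
      by_contra hcon
      push Not at hcon
      obtain ⟨t, rfl⟩ : ∃ t, y = Q * m + r + t := ⟨y - (Q * m + r), by omega⟩
      refine h3 m hm t ?_ ?_ hyp
      · have := hM g' i'
        omega
      · intro g₀ i₀ h
        exact hcon (g₀, i₀) (mem_univ _) (by simp only; rw [h])
    refine (card_le_card h4).trans (card_image_le.trans ?_)
    rw [card_univ, Fintype.card_prod, Fintype.card_fin, Fintype.card_fin]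

theorem hfJ (hmai : S_maiG) (ε : ℝ) (hε : 0 < ε) : ∃ J : ℕ, ∀ (q a : ℕ), 0 < q → a.Coprime q →
    ∃ M : ℕ, 0 < M ∧ ∀ N : ℕ, 0 < N → M ∣ N → ∃ L : ℕ, ∀ T : ℕ, L ≤ T → ∀ u : ℕ,
      (1 / 2 - ε) * T ≤ ({k : ℕ | u < k ∧ k ≤ u + T ∧ N * k ∈ DiffJ J q a}.ncard : ℝ) := by
  classical
  obtain ⟨n, hn⟩ := hmai ε hε
  obtain ⟨K, hK, hQ⟩ := quarterB n
  refine ⟨n * K, fun q a hq ha => ?_⟩
  refine windows (DiffJ (n * K) q a) (n * K).factorial (Nat.factorial_pos _) (1 / 2) ε fun hall => ?_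
  obtain ⟨Q, A, s, hs, hQ1, hinj, hcr⟩ := hn n le_rfl
    {k : ℤ | (((n * K).factorial : ℕ) : ℤ) * k ∈ Cpl (DiffJ (n * K) q a)}
    (fun M hM => by
      obtain ⟨Q, h1, h2, h3⟩ := hall M hM
      refine ⟨Q, h1, h2, fun L₀ => ?_⟩
      obtain ⟨L, hL, u, hu⟩ := h3 L₀
      refine ⟨L, hL, u, le_trans (le_of_eq ?_) hu⟩
      norm_num) (n * K)
  -- distinct points
  obtain ⟨σ, hσ1, hσ2⟩ := select_aux n K (fun g i => (Q g : ℤ) * A g i) (fun g => by
    intro x hx y hy hxy
    have hQ0 : (Q g : ℤ) ≠ 0 := by have := hQ1 g; omega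
    exact hinj g hx hy (mul_left_cancel₀ hQ0 hxy)) n le_rfl
  obtain ⟨H, C, hH⟩ := points n K (n * K).factorial Q (fun g i => A g (σ g i))
  have hM0 : (((n * K).factorial : ℕ) : ℤ) ≠ 0 := by exact_mod_cast (Nat.factorial_pos (n * K)).ne'
  have hHinj : ∀ (g g' : Fin n) (i i' : Fin K), H g i = H g' i' → g = g' ∧ i = i' := by
    intro g g' i i' h
    have e : (((n * K).factorial : ℕ) : ℤ) * (Q g * A g (σ g i) + C) =
        ((n * K).factorial : ℕ) * (Q g' * A g' (σ g' i') + C) := by rw [← hH, ← hH, h]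
    have e1 := mul_left_cancel₀ hM0 e
    have e2 : (Q g : ℤ) * A g (σ g i) = Q g' * A g' (σ g' i') := by linarith
    have e3 := hσ2 g g.2 g' g'.2 i i.2 i' i'.2 e2
    exact ⟨Fin.ext e3.1, Fin.ext e3.2⟩
  have hadm : AdmN q H := by
    refine admN_of' H (fun x y h => ?_) fun p hp hle g i => ?_
    · have := hHinj x.1 y.1 x.2 y.2 h
      exact Prod.ext this.1 this.2
    · rw [hH]
      exact Dvd.dvd.mul_right (Int.natCast_dvd_natCast.2 (Nat.dvd_factorial hp.pos hle)) _
  obtain ⟨Qm, r, M, S, c, hQm, hNQ, hr, hM, hS, hB⟩ := classes_block hQ hq ha H hadm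
  obtain ⟨i, hi, j, hj, hij⟩ := hs.2 (S.map Fin.valEmbedding) (fun x hx => by
    rw [Finset.mem_map] at hx
    obtain ⟨y, _, rfl⟩ := hx
    exact mem_range.2 y.2) (by rw [card_map]; exact hS)
  rw [Finset.mem_map] at hi hj
  obtain ⟨i', hi', rfl⟩ := hi
  obtain ⟨j', hj', rfl⟩ := hj
  have hd := hcr j' j'.2 i' hij (σ j' (c j')) (σ i' (c i')) (hσ1 _ j'.2 _ (c j').2) (hσ1 _ i'.2 _ (c i').2)
  have h := not_Cpl C (hH j' (c j')) (hH i' (c i')) hd
  rcases lt_or_gt_of_ne h.1 with hlt | hlt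
  · exact h.2.1 hlt (diffJ_of hq H hQm hNQ hr hM hB hlt (fun m hm => hm.1 j' hj') (fun m hm => hm.1 i' hi')
      fun m hm => hm.2)
  · exact h.2.2 hlt (diffJ_of hq H hQm hNQ hr hM hB hlt (fun m hm => hm.1 i' hi') (fun m hm => hm.1 j' hj')
      fun m hm => hm.2)

end Pool.Agent.W142.TF
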