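import Pool.Agent.W27.FB.Stm

set_option autoImplicit false
open Filter Topology Finset
open scoped BoundedContinuousFunction

/-!
# Project TF : gaps between consecutive primes, two fifths of the multiples of a suitable number

Definitions and the statements of the independent parts.
`ind`, `sh`, `IsMean`, `Extr` are in `Pool.Agent.W634.BQ.Stms`, `Null`, `Trig` in `Pool.Agent.W27.FB.Stm`.
-/

namespace Pool.Agent.W142.TF

open Pool.Agent.W634.BQ Pool.Agent.W505.BQ Pool.Agent.W27.FB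

/-- TF-DYS : Dyson's constant term identity with equal exponents -/
def S_dys : Prop := ∀ n l : ℕ,
  MvPolynomial.coeff (Finsupp.equivFunOnFinite.symm (fun _ : Fin n => (n - 1) * l))
    (∏ i : Fin n, ∏ j ∈ univ.erase i, (MvPolynomial.X j - MvPolynomial.X i : MvPolynomial (Fin n) ℤ) ^ l) *
      (l.factorial : ℤ) ^ n = ((n * l).factorial : ℤ)

/-- TF-NUL : `n + 1` points whose differences avoid given sets of residues -/
def S_pts : Prop := ∀ n p l : ℕ, p.Prime → (n + 1) * l + 1 ≤ p →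
  ∀ R : Fin (n + 1) → Fin (n + 1) → Finset (ZMod p), (∀ i j, i < j → (R i j).card ≤ 2 * l) →
    ∃ x : Fin (n + 1) → ZMod p, ∀ i j, i < j → x j - x i ∉ R i j

/-- TF-KRO : powers of finitely many points of infinite order close to nontrivial roots of unity of
a given large prime order -/
def S_kro : Prop := ∀ Λ : Finset Circle, (∀ θ ∈ Λ, θ ≠ 1 → ∀ k : ℕ, 0 < k → θ ^ k ≠ 1) →
  ∃ P₀ : ℕ, ∀ p : ℕ, p.Prime → P₀ ≤ p → ∀ δ : ℝ, 0 < δ → ∃ d : ℕ, ∀ θ ∈ Λ, ∃ ζ : Circle,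
    ζ ^ p = 1 ∧ (θ ≠ 1 → ζ ≠ 1) ∧ ‖((θ ^ d : Circle) : ℂ) - (ζ : ℂ)‖ ≤ δ

/-- TF-BAN : a set of upper Banach density at least `β` has measure at least `β` for an extreme
invariant mean -/
def S_ban : Prop := ∀ (S : Set ℤ) (β : ℝ),
  (∀ L₀ : ℕ, ∃ L : ℕ, L₀ ≤ L ∧ ∃ u : ℤ, β * L ≤ ({n : ℕ | n < L ∧ u + (n : ℤ) ∈ S}.ncard : ℝ)) →
  ∃ m : (ℤ →ᵇ ℝ) →ₗ[ℝ] ℝ, IsMean m ∧ Extr m ∧ β ≤ m (ind S)

open Classical in
/-- a function on the integers as a bounded function (`0` if it is not bounded) -/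
noncomputable def toB (g : ℤ → ℝ) : ℤ →ᵇ ℝ :=
  if h : ∃ C : ℝ, ∀ n, |g n| ≤ C then
    BoundedContinuousFunction.ofNormedAddCommGroupDiscrete g h.choose (fun n => h.choose_spec n)
  else 0

/-- the iterated mean of a function of the variables `0, ..., n - 1` (the last variable is the
innermost one) -/
noncomputable def It (m : ℕ → ((ℤ →ᵇ ℝ) →ₗ[ℝ] ℝ)) : ℕ → ((ℕ → ℤ) → ℝ) → ℝ
  | 0, F => F 0
  | n + 1, F => It m n (fun a => m n (toB (fun t => F (Function.update a n t))))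

open Classical in
/-- TF-BLO : blow-up of a configuration of positive iterated mean -/
def S_blo : Prop := ∀ (m : ℕ → ((ℤ →ᵇ ℝ) →ₗ[ℝ] ℝ)), (∀ j, IsMean (m j)) → ∀ (n K : ℕ) (E : (ℕ → ℤ) → Prop),
  0 < It m n (fun a => if E a then 1 else 0) →
  ∃ A : ℕ → ℕ → ℤ, (∀ j, Set.InjOn (A j) {k | k < K}) ∧
    ∀ f : ℕ → ℕ, (∀ j < n, f j < K) → E (fun j => if j < n then A j (f j) else 0)

/-- TF-NET : the translates of a trigonometric polynomial are totally bounded -/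
def S_net : Prop := ∀ Q : ℤ →ᵇ ℂ, Q ∈ Trig → ∀ δ : ℝ, 0 < δ → ∃ F : Finset ℤ, ∀ t : ℤ, ∃ s ∈ F,
  ∀ n : ℤ, ‖Q (n + t) - Q (n + s)‖ ≤ δ

end Pool.Agent.W142.TF
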