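import Pool.Agent.W142.TF.It

set_option autoImplicit false
open Filter Topology Finset
open scoped BoundedContinuousFunction

/-! Project TF: statements of the second batch (correlations of sets and of their almost periodic parts). -/

namespace Pool.Agent.W142.TF

open Pool.Agent.W634.BQ Pool.Agent.W505.BQ Pool.Agent.W27.FB

/-- `P` is an almost periodic approximation of the set `V` for the mean `m` with error `ε`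
(this is the property in `Pool.Agent.W27.FB.S_appr`) -/
def App (m : (ℤ →ᵇ ℝ) →ₗ[ℝ] ℝ) (V : Set ℤ) (P : ℤ →ᵇ ℝ) (ε : ℝ) : Prop :=
  co P ∈ Trig ∧ (∀ n, 0 ≤ P n ∧ P n ≤ 1) ∧
    ∀ b : ℤ →ᵇ ℝ, co b ∈ Trig → (∀ n, |b n| ≤ 1) → ∀ G : ℤ →ᵇ ℝ, (∀ n, |G n| ≤ 1) →
      Null {a : ℤ | ε < |m (b * (ind V - P) * sh a G)|}

/-- a real trigonometric polynomial with values in `[0, 1]` -/
def Tr01 (β : ℤ →ᵇ ℝ) : Prop := co β ∈ Trig ∧ ∀ n, 0 ≤ β n ∧ β n ≤ 1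

/-- TF-ONE : one mean: at generic points a set may be replaced by its almost periodic part -/
def S_one : Prop := ∀ (m : (ℤ →ᵇ ℝ) →ₗ[ℝ] ℝ), IsMean m → ∀ (V : Set ℤ) (P : ℤ →ᵇ ℝ) (ε : ℝ), 0 < ε →
  App m V P ε → ∀ β : ℤ →ᵇ ℝ, Tr01 β → ∀ (n : ℕ) (c : ℕ → ℕ), (∀ i, 1 ≤ c i) → ∀ δ : ℝ, 0 < δ →
  ∃ N : ℕ → (ℕ → ℤ) → Set ℤ, (∀ u a, Null (N u a)) ∧ (∀ u a b, (∀ j < u, a j = b j) → N u a = N u b) ∧
    ∀ a : ℕ → ℤ, (∀ u < n, a u ∉ N u a) →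
      |m (toB (fun t => β t * ∏ i ∈ range n, ind V (t - c i * a i))) -
        m (toB (fun t => β t * ∏ i ∈ range n, P (t - c i * a i)))| ≤ n * (ε + δ)

/-- TF-SEP : separation of variables -/
def S_sep : Prop := ∀ (m : (ℤ →ᵇ ℝ) →ₗ[ℝ] ℝ), IsMean m → ∀ (P β : ℤ →ᵇ ℝ), Tr01 P → (∀ n, 0 ≤ β n ∧ β n ≤ 1) →
  ∀ (n : ℕ) (c : ℕ → ℕ) (δ : ℝ), 0 < δ →
  ∃ (F : Finset ℤ) (w : ℤ → ℝ), (∀ t, 0 ≤ w t) ∧ ∑ t ∈ F, w t ≤ 1 ∧ ∀ a : ℕ → ℤ,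
    |m (toB (fun t => β t * ∏ i ∈ range n, P (t - c i * a i))) -
      ∑ t ∈ F, w t * ∏ i ∈ range n, P (t - c i * a i)| ≤ δ

/-- the weight of a configuration for the sets -/
noncomputable def FV (β : ℕ → (ℤ →ᵇ ℝ)) (V : ℕ → Set ℤ) (c : ℕ → ℕ → ℕ) (n : ℕ) (a : ℕ → ℤ) : ℝ :=
  ∏ j ∈ range n, (β j (a j) * ∏ i ∈ range j, ind (V j) (a j - c j i * a i))

/-- the weight of a configuration for the almost periodic parts -/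
noncomputable def FP (β : ℕ → (ℤ →ᵇ ℝ)) (P : ℕ → (ℤ →ᵇ ℝ)) (c : ℕ → ℕ → ℕ) (n : ℕ) (a : ℕ → ℤ) : ℝ :=
  ∏ j ∈ range n, (β j (a j) * ∏ i ∈ range j, P j (a j - c j i * a i))

/-- TF-CMP : comparison of the iterated means -/
def S_cmp : Prop := ∀ (m : ℕ → ((ℤ →ᵇ ℝ) →ₗ[ℝ] ℝ)), (∀ j, IsMean (m j)) → ∀ (V : ℕ → Set ℤ)
  (P : ℕ → (ℤ →ᵇ ℝ)) (ε : ℝ), 0 < ε → (∀ j, App (m j) (V j) (P j) ε) → ∀ (c : ℕ → ℕ → ℕ), (∀ j i, 1 ≤ c j i) →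
  ∀ (n : ℕ) (β : ℕ → (ℤ →ᵇ ℝ)), (∀ j, Tr01 (β j)) →
    |It m n (FV β V c n) - It m n (FP β P c n)| ≤ 2 * n ^ 2 * ε

end Pool.Agent.W142.TF
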