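import Pool.Agent.W142.TF.MaiF

set_option autoImplicit false
open Filter Topology Finset

/-! Project TF: from the contradiction to the density in windows; translation of integer points to
natural numbers. -/

namespace Pool.Agent.W142.TF

/-- the set of the nonzero integers whose absolute value is not in `G` -/
def Cpl (G : Set ℕ) : Set ℤ := {z : ℤ | z ≠ 0 ∧ z.natAbs ∉ G}

theorem windows (G : Set ℕ) (M₁ : ℕ) (hM₁ : 0 < M₁) (ρ ε : ℝ)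
    (hcon : ¬ ∀ M : ℕ, 1 ≤ M → ∃ Q : ℕ, 1 ≤ Q ∧ M ∣ Q ∧ ∀ L₀ : ℕ, ∃ L : ℕ, L₀ ≤ L ∧ ∃ u : ℤ,
      (1 - ρ + ε) * L ≤ ({n : ℕ | n < L ∧ (Q : ℤ) * (u + (n : ℤ)) ∈ {k : ℤ | (M₁ : ℤ) * k ∈ Cpl G}}.ncard : ℝ)) :
    ∃ M : ℕ, 0 < M ∧ ∀ N : ℕ, 0 < N → M ∣ N → ∃ L : ℕ, ∀ T : ℕ, L ≤ T → ∀ u : ℕ,
      (ρ - ε) * T ≤ ({k : ℕ | u < k ∧ k ≤ u + T ∧ N * k ∈ G}.ncard : ℝ) := by
  classical
  push Not at hcon
  obtain ⟨M, hM, h⟩ := hcon
  refine ⟨M₁ * M, Nat.mul_pos hM₁ hM, fun N hN hdvd => ?_⟩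
  obtain ⟨t, rfl⟩ := hdvd
  have ht : 0 < t := Nat.pos_of_ne_zero (by rintro rfl; simp at hN)
  obtain ⟨L₀, hL₀⟩ := h (M * t) (Nat.mul_pos hM ht) (Dvd.intro _ rfl)
  refine ⟨L₀, fun T hT u => ?_⟩
  have h1 := hL₀ T hT ((u : ℤ) + 1)
  set B : Set ℕ := {n : ℕ | n < T ∧ ((M * t : ℕ) : ℤ) * ((u : ℤ) + 1 + (n : ℤ)) ∈ {k : ℤ | (M₁ : ℤ) * k ∈ Cpl G}} with hB
  have hBfin : B.Finite := (Set.finite_lt_nat T).subset fun n hn => hn.1
  -- the complement of `B` in the window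
  have h2 : ((range T).filter fun n => n ∉ B).card + ((range T).filter fun n => n ∈ B).card = T := by
    rw [add_comm, card_filter_add_card_filter_not, card_range]
  have h3 : B.ncard = ((range T).filter fun n => n ∈ B).card := by
    rw [← Set.ncard_coe_finset]
    congr 1
    ext n
    simp only [coe_filter, mem_range, Set.mem_setOf_eq]
    exact ⟨fun hn => ⟨hn.1, hn⟩, fun hn => hn.2⟩
  have h4 : ((range T).filter fun n => n ∉ B).card ≤ {k : ℕ | u < k ∧ k ≤ u + T ∧ M₁ * M * t * k ∈ G}.ncard := by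
    rw [← Set.ncard_coe_finset, ← Set.ncard_image_of_injective _ (f := fun n : ℕ => u + 1 + n) (fun x y h => by
      simpa using h)]
    refine Set.ncard_le_ncard ?_ ((Set.finite_Ioc u (u + T)).subset fun k hk => ⟨hk.1, hk.2.1⟩)
    rintro _ ⟨n, hn, rfl⟩
    rw [coe_filter] at hn
    obtain ⟨hnT, hnB⟩ := hn
    rw [mem_range] at hnT
    refine ⟨by simp only; omega, by simp only; omega, ?_⟩
    by_contra hG
    refine hnB ⟨hnT, ?_⟩
    have e : (M₁ : ℤ) * (((M * t : ℕ) : ℤ) * ((u : ℤ) + 1 + (n : ℤ))) = ((M₁ * M * t * (u + 1 + n) : ℕ) : ℤ) := by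
      push_cast; ring
    show (M₁ : ℤ) * (((M * t : ℕ) : ℤ) * ((u : ℤ) + 1 + (n : ℤ))) ∈ Cpl G
    rw [e]
    refine ⟨?_, ?_⟩
    · rw [Ne, Nat.cast_eq_zero]
      exact (Nat.mul_pos hN (by omega)).ne'
    · rw [Int.natAbs_natCast]
      exact hG
  have h5 : (T : ℝ) - B.ncard ≤ ({k : ℕ | u < k ∧ k ≤ u + T ∧ M₁ * M * t * k ∈ G}.ncard : ℝ) := by
    have h6 : (T : ℝ) = (((range T).filter fun n => n ∉ B).card : ℝ) + (((range T).filter fun n => n ∈ B).card : ℝ) := by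
      exact_mod_cast h2.symm
    have h7 : (((range T).filter fun n => n ∉ B).card : ℝ) ≤
        ({k : ℕ | u < k ∧ k ≤ u + T ∧ M₁ * M * t * k ∈ G}.ncard : ℝ) := by exact_mod_cast h4
    rw [h3]
    linarith
  have h8 : (B.ncard : ℝ) < (1 - ρ + ε) * T := h1
  linarith

theorem points (n K M₁ : ℕ) (Q : ℕ → ℕ) (A : ℕ → ℕ → ℤ) : ∃ (H : Fin n → Fin K → ℕ) (C : ℤ),
    ∀ g i, (H g i : ℤ) = M₁ * (Q g * A g i + C) := by
  set C : ℤ := ∑ g ∈ range n, ∑ i ∈ range K, |(Q g : ℤ) * A g i| with hC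
  have h : ∀ (g : Fin n) (i : Fin K), 0 ≤ (M₁ : ℤ) * (Q g * A g i + C) := by
    intro g i
    refine mul_nonneg (Nat.cast_nonneg _) ?_
    have h1 : |(Q g : ℤ) * A g i| ≤ ∑ i ∈ range K, |(Q g : ℤ) * A g i| :=
      single_le_sum (f := fun i : ℕ => |(Q g : ℤ) * A g i|) (fun _ _ => abs_nonneg _) (mem_range.2 i.2)
    have h2 : ∑ i ∈ range K, |(Q g : ℤ) * A g i| ≤ C :=
      single_le_sum (f := fun g : ℕ => ∑ i ∈ range K, |(Q g : ℤ) * A g i|)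
        (fun _ _ => sum_nonneg fun _ _ => abs_nonneg _) (mem_range.2 g.2)
    have h3 := neg_abs_le ((Q g : ℤ) * A g i)
    linarith
  exact ⟨fun g i => ((M₁ : ℤ) * (Q g * A g i + C)).toNat, C, fun g i => Int.toNat_of_nonneg (h g i)⟩

end Pool.Agent.W142.TF
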